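import Mathlib

/-! The Baer module of a normal subgroup of class two and odd exponent. -/

set_option linter.unusedSectionVars false

namespace Pool.Agent.P.MP_3dfad8_al.H3

open scoped commutatorElement

universe u

/-- A copy of the group that carries the new addition. -/
def Br (Γ : Type u) (_h : ℕ) : Type u := Γ

section Br

variable {Γ : Type u} [Group Γ] {p h : ℕ}

/-- The underlying group element. -/
def Br.val (a : Br Γ h) : Γ := a

/-- The element of the copy. -/
def Br.mk (h : ℕ) (a : Γ) : Br Γ h := a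

instance : Add (Br Γ h) := ⟨fun a b => Br.mk h (a.val * b.val * ⁅b.val, a.val⁆ ^ h)⟩
instance : Zero (Br Γ h) := ⟨Br.mk h 1⟩
instance : Neg (Br Γ h) := ⟨fun a => Br.mk h a.val⁻¹⟩

theorem com_left (cen : ∀ a b c : Γ, Commute ⁅a, b⁆ c) (a b c : Γ) :
    ⁅a * b, c⁆ = ⁅a, c⁆ * ⁅b, c⁆ := by
  rw [commutatorElement_mul_left_eq_conj_mul, ← (cen b c a).eq, mul_inv_cancel_right, (cen b c _).eq]

theorem com_right (cen : ∀ a b c : Γ, Commute ⁅a, b⁆ c) (a b c : Γ) :
    ⁅c, a * b⁆ = ⁅c, a⁆ * ⁅c, b⁆ := by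
  rw [← commutatorElement_inv, com_left cen, mul_inv_rev, commutatorElement_inv,
    commutatorElement_inv, (cen c b _).eq]

theorem br_assoc (cen : ∀ a b c : Γ, Commute ⁅a, b⁆ c) (a b c : Br Γ h) :
    a + b + c = a + (b + c) := by
  change a.val * b.val * ⁅b.val, a.val⁆ ^ h * c.val *
      ⁅c.val, a.val * b.val * ⁅b.val, a.val⁆ ^ h⁆ ^ h =
    a.val * (b.val * c.val * ⁅c.val, b.val⁆ ^ h) * ⁅b.val * c.val * ⁅c.val, b.val⁆ ^ h, a.val⁆ ^ h
  generalize a.val = a, b.val = b, c.val = c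
  rw [com_right cen, com_right cen, com_left cen, com_left cen,
    commutatorElement_eq_one_iff_commute.2 ((cen b a c).pow_left h).symm,
    commutatorElement_eq_one_iff_commute.2 ((cen c b a).pow_left h), mul_one, mul_one,
    (cen c a _).mul_pow, (cen b a _).mul_pow, mul_assoc (a * b), ((cen b a c).pow_left h).eq]
  simp only [mul_assoc]
  rw [((cen c b _).pow_left h).eq, mul_assoc]

theorem br_comm (cen : ∀ a b c : Γ, Commute ⁅a, b⁆ c) (ex : ∀ a : Γ, a ^ p = 1)
    (hh : 2 * h = p + 1) (a b : Br Γ h) : a + b = b + a := by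
  change a.val * b.val * ⁅b.val, a.val⁆ ^ h = b.val * a.val * ⁅a.val, b.val⁆ ^ h
  generalize a.val = a, b.val = b
  have e : a * b = b * a * ⁅a, b⁆ := by
    rw [← (cen a b _).eq, commutatorElement_def]
    group
  have e2 : ⁅a, b⁆ = ⁅a, b⁆ ^ h * ⁅a, b⁆ ^ h := by
    rw [← pow_add, ← two_mul, hh, pow_succ, ex, one_mul]
  rw [e, ← commutatorElement_inv a b, inv_pow, mul_assoc, mul_inv_eq_iff_eq_mul.2 e2]

/-- The Baer group. -/
@[reducible] def brGroup (cen : ∀ a b c : Γ, Commute ⁅a, b⁆ c) (ex : ∀ a : Γ, a ^ p = 1)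
    (hh : 2 * h = p + 1) : AddCommGroup (Br Γ h) :=
  { AddGroup.ofLeftAxioms (br_assoc cen)
      (fun a => by
        change 1 * a.val * ⁅a.val, 1⁆ ^ h = a.val
        simp)
      (fun a => by
        change a.val⁻¹ * a.val * ⁅a.val, a.val⁻¹⁆ ^ h = 1
        rw [commutatorElement_eq_one_iff_commute.2 (Commute.refl _).inv_right]
        simp) with
    add_comm := br_comm cen ex hh }

end Br

/-- The Baer module `V` of the normal subgroup `Γ` of `K`. -/
structure BM (p h : ℕ) {K : Type u} [Group K] (Γ : Subgroup K) (V : Type u) [AddCommGroup V]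
    [Module (ZMod p) V] where
  ι : V → K
  ρ : K →* Module.End (ZMod p) V
  inj : Function.Injective ι
  mem : ∀ v, ι v ∈ Γ
  sur : ∀ k ∈ Γ, ∃ v, ι v = k
  add : ∀ a b, ι (a + b) = ι a * ι b * ⁅ι b, ι a⁆ ^ h
  act : ∀ g v, ι (ρ g v) = g * ι v * g⁻¹
  cen : ∀ a ∈ Γ, ∀ b ∈ Γ, ∀ c ∈ Γ, Commute ⁅a, b⁆ c
  ex : ∀ a ∈ Γ, a ^ p = 1
  hh : 2 * h = p + 1

theorem exists_rep (p : ℕ) {K V : Type*} [Group K] [AddCommGroup V] [Module (ZMod p) V]
    (φ : K → V →+ V) (h1 : ∀ a, φ 1 a = a) (h2 : ∀ g g' a, φ (g * g') a = φ g (φ g' a)) :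
    ∃ ρ : K →* Module.End (ZMod p) V, ∀ g a, ρ g a = φ g a :=
  ⟨{  toFun := fun g => (φ g).toZModLinearMap p
      map_one' := LinearMap.ext h1
      map_mul' := fun g g' => LinearMap.ext (h2 g g') }, fun _ _ => rfl⟩

theorem exists_BM {p h : ℕ} [NeZero p] {K : Type u} [Group K] (Γ : Subgroup K) [hΓ : Γ.Normal]
    (cen : ∀ a ∈ Γ, ∀ b ∈ Γ, ∀ c ∈ Γ, Commute ⁅a, b⁆ c) (ex : ∀ a ∈ Γ, a ^ p = 1)
    (hh : 2 * h = p + 1) :
    ∃ (V : Type u) (_ : AddCommGroup V) (_ : Module (ZMod p) V), Nonempty (BM p h Γ V) := by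
  have cen' : ∀ a b c : Γ, Commute ⁅a, b⁆ c := fun a b c =>
    Subtype.ext (cen a a.2 b b.2 c c.2).eq
  have ex' : ∀ a : Γ, a ^ p = 1 := fun a => Subtype.ext (ex a a.2)
  let := brGroup cen' ex' hh
  have hn : ∀ (n : ℕ) (a : Br Γ h), (n • a).val = a.val ^ n := fun n a => by
    induction n with
    | zero => rw [zero_nsmul, pow_zero]; rfl
    | succ n ih =>
      rw [succ_nsmul]
      change (n • a).val * a.val * ⁅a.val, (n • a).val⁆ ^ h = _
      rw [ih, commutatorElement_eq_one_iff_commute.2 (Commute.self_pow _ _), one_pow, mul_one,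
        pow_succ]
  let : Module (ZMod p) (Br Γ h) := AddCommGroup.zmodModule fun a => (hn p a).trans (ex' _)
  let φ : K → Br Γ h →+ Br Γ h := fun g => AddMonoidHom.mk'
    (fun a => Br.mk h (MulAut.conjNormal g a.val)) fun a b => by
      change MulAut.conjNormal g (a.val * b.val * ⁅b.val, a.val⁆ ^ h) = MulAut.conjNormal g a.val *
        MulAut.conjNormal g b.val * ⁅MulAut.conjNormal g b.val, MulAut.conjNormal g a.val⁆ ^ h
      rw [map_mul, map_mul, map_pow, map_commutatorElement]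
  obtain ⟨ρ, hρ⟩ := exists_rep p φ
    (fun a => Subtype.ext (show (1 : K) * (a.val : K) * (1 : K)⁻¹ = a.val by group))
    fun g g' a => Subtype.ext
      (show g * g' * (a.val : K) * (g * g')⁻¹ = g * (g' * (a.val : K) * g'⁻¹) * g⁻¹ by group)
  exact ⟨Br Γ h, inferInstance, inferInstance, ⟨
    { ι := fun a => (a.val : K)
      ρ := ρ
      inj := fun a b e => Subtype.ext e
      mem := fun a => a.val.2
      sur := fun k hk => ⟨Br.mk h ⟨k, hk⟩, rfl⟩
      add := fun a b => rfl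
      act := fun g a => by rw [hρ]; rfl
      cen := cen
      ex := ex
      hh := hh }⟩⟩

theorem geom_char {p : ℕ} [hp : Fact p.Prime] {R : Type*} [Ring R] [Algebra (ZMod p) R] (u : R) :
    (u - 1) ^ (p - 1) = ∑ k ∈ Finset.range p, u ^ k := by
  have e0 : (Polynomial.X - 1 : Polynomial (ZMod p)) ^ (p - 1) =
      ∑ k ∈ Finset.range p, Polynomial.X ^ k := by
    refine mul_right_cancel₀ (Polynomial.X_sub_C_ne_zero 1) ?_
    rw [Polynomial.C_1, geom_sum_mul, ← pow_succ, Nat.sub_add_cancel hp.out.pos, sub_pow_char,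
      one_pow]
  simpa using congrArg (Polynomial.aeval u) e0

namespace BM

variable {p h : ℕ} [hp : Fact p.Prime] {K : Type u} [Group K] {Γ : Subgroup K} {V : Type u}
  [AddCommGroup V] [Module (ZMod p) V] (B : BM p h Γ V)

theorem zero : B.ι 0 = 1 := by
  have := B.add 0 0
  rw [add_zero, commutatorElement_self, one_pow, mul_one] at this
  exact left_eq_mul.1 this

theorem nsmul (n : ℕ) (a : V) : B.ι (n • a) = B.ι a ^ n := by
  induction n with
  | zero => rw [zero_nsmul, pow_zero, B.zero]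
  | succ n ih =>
    rw [succ_nsmul, B.add, ih, commutatorElement_eq_one_iff_commute.2 (Commute.self_pow _ _),
      one_pow, mul_one, pow_succ]

theorem neg (a : V) : B.ι (-a) = (B.ι a)⁻¹ := by
  obtain ⟨b, hb⟩ := B.sur _ (Γ.inv_mem (B.mem a))
  have : a + b = 0 := B.inj (by
    rw [B.add, hb, B.zero, commutatorElement_eq_one_iff_commute.2 (Commute.refl _).inv_left]
    simp)
  rw [neg_eq_of_add_eq_zero_right this, hb]

/-- The submodule of a subgroup. -/
def sub (S : Subgroup K) : Submodule (ZMod p) V where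
  carrier := {v | B.ι v ∈ S}
  zero_mem' := by change B.ι 0 ∈ S; rw [B.zero]; exact S.one_mem
  add_mem' := fun {a b} ha hb => by
    change B.ι (a + b) ∈ S
    rw [B.add, commutatorElement_def]
    exact S.mul_mem (S.mul_mem ha hb)
      (S.pow_mem (S.mul_mem (S.mul_mem (S.mul_mem hb ha) (S.inv_mem hb)) (S.inv_mem ha)) _)
  smul_mem' := fun c a ha => by
    change B.ι (c • a) ∈ S
    rw [← ZMod.natCast_zmod_val c, Nat.cast_smul_eq_nsmul, B.nsmul]
    exact S.pow_mem ha _

theorem mem_sub {S : Subgroup K} {v : V} : v ∈ B.sub S ↔ B.ι v ∈ S := Iff.rfl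

theorem sub_mono {S T : Subgroup K} (e : S ≤ T) : B.sub S ≤ B.sub T := fun _ hv => e hv

theorem sub_bot {v : V} (hv : v ∈ B.sub ⊥) : v = 0 := B.inj ((Subgroup.mem_bot.1 hv).trans B.zero.symm)

theorem sub_mem_iff (S : Subgroup K) [S.Normal] (a b : V) :
    a - b ∈ B.sub S ↔ (B.ι a : K ⧸ S) = B.ι b := by
  rw [mem_sub, ← QuotientGroup.eq_one_iff]
  constructor
  · intro e
    rw [← sub_add_cancel a b, B.add]
    change QuotientGroup.mk' S _ = QuotientGroup.mk' S _
    rw [map_mul, map_mul, map_pow, map_commutatorElement]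
    simp [e]
  · intro e
    rw [sub_eq_add_neg, B.add, B.neg]
    change QuotientGroup.mk' S _ = _
    rw [map_mul, map_mul, map_pow, map_commutatorElement, map_inv]
    simp only [QuotientGroup.mk'_apply, e]
    rw [commutatorElement_eq_one_iff_commute.2 (Commute.refl _).inv_left]
    simp

theorem D_mem (S : Subgroup K) [S.Normal] (g : K) (v : V) :
    (B.ρ g - 1) v ∈ B.sub S ↔ ⁅g, B.ι v⁆ ∈ S := by
  rw [LinearMap.sub_apply, Module.End.one_apply, sub_mem_iff, B.act, ← QuotientGroup.eq_one_iff,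
    commutatorElement_def, QuotientGroup.mk_mul S (g * _ * _), QuotientGroup.mk_inv,
    mul_inv_eq_one]

theorem act_mem {S : Subgroup K} [hS : S.Normal] (g : K) {v : V} (hv : v ∈ B.sub S) :
    B.ρ g v ∈ B.sub S := by
  rw [mem_sub, B.act]
  exact hS.conj_mem _ hv g

theorem sum_sq (f : ℕ → V) (n : ℕ) : ∃ z ∈ Γ, (∀ c ∈ Γ, Commute z c) ∧
    ((List.range n).map fun k => B.ι (f k)).prod = B.ι (∑ k ∈ Finset.range n, f k) * z ∧
    ((List.range n).map fun k => (B.ι (f k))⁻¹).prod =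
      (B.ι (∑ k ∈ Finset.range n, f k))⁻¹ * z := by
  induction n with
  | zero => exact ⟨1, Γ.one_mem, fun c _ => Commute.one_left c, by simp [B.zero]⟩
  | succ n ih =>
    obtain ⟨z, hz, hc, h1, h2⟩ := ih
    have hs := B.mem (∑ k ∈ Finset.range n, f k)
    have hu := B.mem (f n)
    rw [List.range_succ, List.map_append, List.map_append, List.prod_append, List.prod_append,
      h1, h2, Finset.sum_range_succ]
    simp only [List.map_singleton, List.prod_singleton]
    have e1 := B.add (∑ k ∈ Finset.range n, f k) (f n)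
    have e2 := B.add (f n) (∑ k ∈ Finset.range n, f k)
    rw [add_comm] at e2
    generalize B.ι (∑ k ∈ Finset.range n, f k + f n) = t at e1 e2
    generalize B.ι (∑ k ∈ Finset.range n, f k) = s at *
    generalize B.ι (f n) = u at *
    have hw : ⁅s, u⁆ ∈ Γ := by
      rw [commutatorElement_def]
      exact Γ.mul_mem (Γ.mul_mem (Γ.mul_mem hs hu) (Γ.inv_mem hs)) (Γ.inv_mem hu)
    have cw : ∀ c ∈ Γ, Commute (⁅s, u⁆ ^ h) c := fun c hc' => (B.cen s hs u hu c hc').pow_left h
    refine ⟨⁅s, u⁆ ^ h * z, Γ.mul_mem (Γ.pow_mem hw _) hz,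
      fun c hc' => (cw c hc').mul_left (hc c hc'), ?_, ?_⟩
    · rw [e1, ← commutatorElement_inv s u, inv_pow, mul_assoc s z, (hc u hu).eq]
      group
    · rw [e2, mul_assoc s⁻¹ z, (hc u hu).inv_right.eq, ← (cw _ (Γ.mul_mem hu hs)).eq]
      group

theorem engel {M : Subgroup K} (hΓ : Γ ≤ M) (hM : ∀ g, g ∉ M → g ^ p = 1) {g : K} (hg : g ∉ M) :
    (B.ρ g - 1) ^ (p - 1) = 0 := by
  have key : ∀ u n, ((List.range n).map fun k => g ^ k * u * (g ^ k)⁻¹).prod * g ^ n =
      (u * g) ^ n := fun u n => by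
    induction n with
    | zero => simp
    | succ n ih =>
      rw [List.range_succ, List.map_append, List.prod_append, pow_succ (u * g), ← ih, pow_succ g]
      simp only [List.map_singleton, List.prod_singleton]
      group
  have one : ∀ u ∈ Γ, ((List.range p).map fun k => g ^ k * u * (g ^ k)⁻¹).prod = 1 := fun u hu => by
    have := key u p
    rwa [hM g hg, mul_one, hM _ fun e => hg ((M.mul_mem_cancel_left (hΓ hu)).1 e)] at this
  rw [geom_char (p := p)]
  refine LinearMap.ext fun v => ?_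
  obtain ⟨z, -, hc, h1, h2⟩ := B.sum_sq (fun k => (B.ρ g ^ k) v) p
  simp only [← map_pow, B.act] at h1 h2
  rw [one _ (B.mem v)] at h1
  have h3 := one _ (Γ.inv_mem (B.mem v))
  simp only [← conj_inv] at h3
  rw [h3] at h2
  rw [LinearMap.sum_apply, LinearMap.zero_apply]
  simp only [← map_pow]
  refine B.inj ?_
  have hs := B.ex _ (B.mem (∑ k ∈ Finset.range p, B.ρ (g ^ k) v))
  rw [B.zero]
  generalize B.ι (∑ k ∈ Finset.range p, B.ρ (g ^ k) v) = s at *
  have h4 : s ^ 2 = 1 := by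
    rw [sq, h1]
    congr 1
    exact inv_mul_eq_one.1 h2.symm
  have h5 : s ^ (2 * h) = 1 := by rw [pow_mul, h4, one_pow]
  rwa [B.hh, pow_succ, hs, one_mul] at h5

end BM

end Pool.Agent.P.MP_3dfad8_al.H3
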