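import Pool.Agent.P.MP_3dfad8_al.Core

/-! The last step of the degree argument, without a hypothesis on central powers. -/

namespace Pool.Agent.P.MP_3dfad8_al.H3

open Finset
open scoped commutatorElement

theorem core1 {G A : Type*} [Group G] [CommGroup A] (p : ℕ) [hp : Fact p.Prime] (ι : A →* G)
    (hι : Function.Injective ι) (hA : ∀ a : A, a ^ p = 1) (hP : ∀ x : G, ∃ a, ι a = x ^ p)
    (B : Subgroup G) [hB : B.Normal] (hout : ∀ x, x ∉ B → x ^ p = 1) (la : List G)
    (hla : ∀ s : List G, s.Sublist la → s ≠ [] → s.reverse.prod ∉ B)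
    (hc : lcs G (la.length + p + 1) = ⊥) (h2 : ∀ v ∈ lcs G 2, v ^ p = 1) {x : G} (hx : x ∈ B) :
    x ^ p ∈ Subgroup.center G := by
  choose P hP using hP
  obtain ⟨F, hF⟩ : ∃ F : G → Additive A, ∀ x, ι (F x).toMul = x ^ p :=
    ⟨fun x => Additive.ofMul (P x), hP⟩
  have hF0 : ∀ x, F x = 0 ↔ x ^ p = 1 := fun x => by
    rw [← hF x, map_eq_one_iff ι hι, toMul_eq_one]
  have hFt : ∀ x t, F (x ^ t) = t • F x := fun x t => by
    apply Additive.toMul.injective
    apply hι
    rw [hF, toMul_nsmul, map_pow, hF, ← pow_mul, ← pow_mul, mul_comm]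
  have hM : ∀ m : Additive A, p • m = 0 := fun m => by
    apply Additive.toMul.injective
    rw [toMul_nsmul, hA, toMul_zero]
  have hdeg : ∀ l : List (G × ℕ), (∀ e ∈ l, e.1 ∈ lcs G e.2 ⊓ B) →
      p + 1 ≤ (l.map Prod.snd).sum → ader l F 1 = 0 := fun l hl hs => by
    refine ader_free la 1 _ (fun s h1 h2 => ?_) ?_
    · refine ader_van (B : Set G)ᶜ l (fun e he y hy h => hy ?_) F
        (fun y hy => (hF0 y).2 (hout y hy)) _ (by simpa using hla s h1 h2)
      exact (B.mul_mem_cancel_right (hl e he).2).mp h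
    · have h1 := der_pow_mem (lcs_ns G) rfl (l ++ la.map fun a => (a, 1)) (fun e he => by
        rcases List.mem_append.mp he with h | h
        · exact (hl e h).1
        · obtain ⟨a, -, rfl⟩ := List.mem_map.mp h
          exact Subgroup.mem_top _) p 1
      have h2 : (fun y : G => y ^ p) = fun y => ι (F y).toMul := funext fun y => (hF y).symm
      rw [h2, der_eq, ader_append] at h1
      have h3 := (lcs_ns G).anti (show la.length + p + 1 ≤ _ by
        rw [List.map_append, List.sum_append, List.map_map]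
        have : (la.map (Prod.snd ∘ fun a => (a, 1))).sum = la.length := by
          simp [Function.comp_def]
        omega) h1
      rw [hc, Subgroup.mem_bot, map_eq_one_iff ι hι, toMul_eq_one] at h3
      exact h3
  have top : ∀ j, la.length + p + 1 ≤ j → ∀ v ∈ lcs G j ⊓ B, v = 1 := fun j hj v hv => by
    have := (lcs_ns G).anti hj hv.1
    rwa [hc, Subgroup.mem_bot] at this
  have step : ∀ k, 1 ≤ k → (∀ v ∈ lcs G (k + 1) ⊓ B, F v = 0) → ∀ u ∈ lcs G k ⊓ B,
      u ^ p ∈ Subgroup.center G := by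
    intro k hk ih
    have inner : ∀ j, k + 1 ≤ j → (∀ u ∈ lcs G k ⊓ B, ∀ v ∈ lcs G (j + 1) ⊓ B, F (u * v) = F u) →
        ∀ u ∈ lcs G k ⊓ B, ∀ v ∈ lcs G j ⊓ B, F (u * v) = F u := by
      intro j hj ih2 u hu v hv
      have hvk : v ∈ lcs G (k + 1) ⊓ B := ⟨(lcs_ns G).anti hj hv.1, hv.2⟩
      have hvk' : v ∈ lcs G k ⊓ B := ⟨(lcs_ns G).anti (Nat.le_succ k) hvk.1, hv.2⟩
      rw [← sub_eq_zero]
      refine two_var p hM (fun a b => ader (List.replicate a (u, k))
        (ader (List.replicate b (v, j)) F) 1) _ (fun b => ?_) (fun a b hab => ?_) fun t ht => ?_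
      · refine ader_van (lcs G (k + 1) ⊓ B : Subgroup G) _ (fun e he y hy => ?_) F ih 1
          (Subgroup.one_mem _)
        rw [List.eq_of_mem_replicate he]
        exact Subgroup.mul_mem _ hy hvk
      · rw [← ader_append]
        refine hdeg _ (fun e he => ?_) ?_
        · rcases List.mem_append.mp he with h | h
          · rw [List.eq_of_mem_replicate h]; exact hv
          · rw [List.eq_of_mem_replicate h]; exact hu
        · simp only [List.map_append, List.map_replicate, List.sum_append, List.sum_replicate,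
            smul_eq_mul]
          nlinarith [Nat.mul_le_mul_left a hk, Nat.mul_le_mul_left (b + 1) (show 2 ≤ j by omega)]
      · have hw : u ^ t * v ^ t ∈ lcs G k ⊓ B :=
          Subgroup.mul_mem _ (Subgroup.pow_mem _ hu t) (Subgroup.pow_mem _ hvk' t)
        have h1 := ih2 _ hw ((u ^ t * v ^ t)⁻¹ * (u * v) ^ t) ⟨mul_pow_mod u v hv.1 t,
          B.mul_mem (B.inv_mem hw.2) (B.pow_mem (B.mul_mem hu.2 hv.2) t)⟩
        rw [mul_inv_cancel_left, hFt, newton F v j (u ^ t) (Nat.lt_succ_of_lt ht),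
          sum_range_succ'] at h1
        rw [smul_sub, h1, ← hFt]
        simp only [Nat.choose_zero_right, one_smul, List.replicate_zero, ader, add_sub_cancel_right]
        refine sum_congr rfl fun b _ => ?_
        rw [← newton _ u k 1 ht, one_mul]
    have all : ∀ j, k + 1 ≤ j → ∀ u ∈ lcs G k ⊓ B, ∀ v ∈ lcs G j ⊓ B, F (u * v) = F u := by
      refine down _ _ (la.length + p + 1) (fun j hj u _ v hv => ?_) inner
      rw [top j hj v hv, mul_one]
    intro u hu
    refine Subgroup.mem_center_iff.mpr fun g => ?_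
    have h1 : u⁻¹ * (g * u * g⁻¹) ∈ lcs G (k + 1) ⊓ B := by
      refine ⟨?_, B.mul_mem (B.inv_mem hu.2) (hB.conj_mem u hu.2 g)⟩
      have := (lcs_ns G).comm k 1 _ g ((lcs G k).inv_mem hu.1) (Subgroup.mem_top _)
      have h0 : ⁅u⁻¹, g⁆ = u⁻¹ * (g * u * g⁻¹) := by
        rw [commutatorElement_def]
        group
      rwa [h0] at this
    have h2 := all (k + 1) le_rfl u hu _ h1
    rw [mul_inv_cancel_left] at h2
    have h3 := hF (g * u * g⁻¹)
    rw [h2, hF, conj_pow] at h3
    exact mul_inv_eq_iff_eq_mul.mp h3.symm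
  exact step 1 le_rfl (fun v hv => (hF0 v).2 (h2 v hv.1)) x ⟨Subgroup.mem_top _, hx⟩

end Pool.Agent.P.MP_3dfad8_al.H3
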