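import Pool.Agent.P.MP_3dfad8_al.H3.Two
import Pool.Agent.P.MP_3dfad8_al.H3.Cen

/-! The class bound for two-generator groups, and the reduction to them. -/

namespace Pool.Agent.P.MP_3dfad8_al.H3

open scoped commutatorElement IsMulCommutative

universe u

variable {p : ℕ} [hp : Fact p.Prime]

theorem lcs_le {K : Type*} [Group K] (i j : ℕ) : ⁅lcs K i, lcs K j⁆ ≤ lcs K (i + j) :=
  Subgroup.commutator_le.2 fun a ha b hb => (lcs_ns K).comm i j a b ha hb

/-- Commutators of two deep terms. -/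
def TT (K : Type u) [Group K] (w : ℕ) : Subgroup K :=
  ⨆ q : {q : ℕ × ℕ // 3 ≤ q.1 ∧ 3 ≤ q.2 ∧ w ≤ q.1 + q.2}, ⁅lcs K q.1.1, lcs K q.1.2⁆

theorem le_TT (K : Type u) [Group K] {w i j : ℕ} (hi : 3 ≤ i) (hj : 3 ≤ j) (hw : w ≤ i + j) :
    ⁅lcs K i, lcs K j⁆ ≤ TT K w :=
  le_iSup (fun q : {q : ℕ × ℕ // 3 ≤ q.1 ∧ 3 ≤ q.2 ∧ w ≤ q.1 + q.2} =>
    ⁅lcs K q.1.1, lcs K q.1.2⁆) ⟨(i, j), hi, hj, hw⟩

instance (K : Type u) [Group K] (w : ℕ) : (TT K w).Normal :=
  ⟨fun n hn g => by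
    refine Subgroup.iSup_induction _ (C := fun n => g * n * g⁻¹ ∈ TT K w) hn (fun q n hq => ?_)
      (by simp) fun a b ha hb => ?_
    · exact le_TT K q.2.1 q.2.2.1 q.2.2.2 (Subgroup.Normal.conj_mem inferInstance n hq g)
    · rw [← conj_mul]
      exact mul_mem ha hb⟩

theorem uf_TT (K : Type u) [Group K] : UF fun w => lcs K (w + 1) ⊔ TT K w where
  normal := fun _ => inferInstance
  le := fun _ => le_sup_left
  comm := fun a i g u hg hu => by
    obtain ⟨N, hN⟩ : ∃ N, N = lcs K (i + a + 1) ⊔ TT K (i + a) := ⟨_, rfl⟩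
    have : N.Normal := hN ▸ inferInstance
    have key : ∀ S : Subgroup K, ⁅S, lcs K a⁆ ≤ N →
        S ≤ (Subgroup.centralizer {(g : K ⧸ N)}).comap (QuotientGroup.mk' N) := fun S h k hk => by
      refine Subgroup.mem_centralizer_singleton_iff.2 (commutatorElement_eq_one_iff_mul_comm.1 ?_)
      exact (map_commutatorElement (QuotientGroup.mk' N) k g).symm.trans
        ((QuotientGroup.eq_one_iff _).2 (h (Subgroup.commutator_mem_commutator hk hg)))
    have h1 : lcs K (i + 1) ⊔ TT K i ≤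
        (Subgroup.centralizer {(g : K ⧸ N)}).comap (QuotientGroup.mk' N) := by
      refine sup_le (key _ ?_) (iSup_le fun q => key _ ?_)
      · rw [hN, show i + a + 1 = i + 1 + a by omega]
        exact (lcs_le _ _).trans le_sup_left
      · obtain ⟨⟨j, k⟩, h1, h2, h3⟩ := q
        simp only at h1 h2 h3 ⊢
        refine three _ _ _ _ ?_ ?_
        · exact (Subgroup.commutator_mono (lcs_le _ _) le_rfl).trans
            ((le_TT K (by omega) h1 (by omega)).trans (hN ▸ le_sup_right))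
        · exact (Subgroup.commutator_mono (lcs_le _ _) le_rfl).trans
            ((le_TT K (by omega) h2 (by omega)).trans (hN ▸ le_sup_right))
    rw [← hN, ← QuotientGroup.eq_one_iff]
    exact (map_commutatorElement (QuotientGroup.mk' N) g u).trans
      (commutatorElement_eq_one_iff_mul_comm.2
        (Subgroup.mem_centralizer_singleton_iff.1 (h1 hu)).symm)

theorem central_pow {h : ℕ} (hh : 2 * h = p + 1) {K : Type u} [Group K] {x y : K}
    (hxy : Subgroup.closure {x, y} = ⊤) {n : ℕ} (hn : lcs K n = ⊥)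
    (hH : ⁅⁅lcs K 3, lcs K 2⁆, lcs K 3⁆ = ⊥) (hex : ∀ a ∈ lcs K 2, a ^ p = 1)
    {M : Subgroup K} [M.Normal] (h2M : lcs K 2 ≤ M) (hM : ∀ g, g ∉ M → g ^ p = 1) (hx : x ∈ M)
    (hy : y ∉ M) : x ^ p ∈ Subgroup.center K := by
  have h3p : 3 ≤ p := by have := hp.out.two_le; omega
  obtain ⟨N, hN⟩ : ∃ N, N = ⁅lcs K 3, lcs K 2⁆ := ⟨_, rfl⟩
  have : N.Normal := hN ▸ inferInstance
  have hN3 : N ≤ lcs K 3 := hN ▸ Subgroup.commutator_le_left _ _
  have h32 : lcs K 3 ≤ lcs K 2 := (lcs_ns K).anti (by omega)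
  have cN : ∀ a ∈ N, ∀ b ∈ lcs K 3, Commute a b := fun a ha b hb =>
    commutatorElement_eq_one_iff_commute.1 (Subgroup.mem_bot.1
      (hH ▸ Subgroup.commutator_mem_commutator (hN ▸ ha) hb))
  have sj := QuotientGroup.mk'_surjective N
  have lm : ∀ i, lcs (K ⧸ N) i = (lcs K i).map (QuotientGroup.mk' N) := fun i => by
    rw [lcs, lcs, Subgroup.map_lowerCentralSeries, Subgroup.map_top_of_surjective _ sj]
  have back : ∀ (S : Subgroup K) (k : K), QuotientGroup.mk' N k ∈ S.map (QuotientGroup.mk' N) →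
      k ∈ S ⊔ N := fun S k hk => by
    have := Subgroup.comap_map_eq (QuotientGroup.mk' N) S
    rw [QuotientGroup.ker_mk'] at this
    rw [← this]
    exact hk
  have gQ : Subgroup.closure {QuotientGroup.mk' N x, QuotientGroup.mk' N y} = ⊤ := by
    rw [← Set.image_pair, ← MonoidHom.map_closure, hxy, Subgroup.map_top_of_surjective _ sj]
  have c32 : ∀ a ∈ lcs (K ⧸ N) 3, ∀ b ∈ lcs (K ⧸ N) 2, Commute a b := by
    rw [lm, lm]
    rintro _ ⟨a, ha, rfl⟩ _ ⟨b, hb, rfl⟩
    rw [← commutatorElement_eq_one_iff_commute, ← map_commutatorElement]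
    exact (QuotientGroup.eq_one_iff _).2 (hN ▸ Subgroup.commutator_mem_commutator ha hb)
  obtain ⟨a1, a2, a3⟩ := two_step hh gQ (n := n) (by rw [lm, hn, Subgroup.map_bot])
    (fun a ha b hb => by
      obtain ⟨_, ⟨i, rfl⟩, a', ha', rfl⟩ := Subgroup.mem_sup_of_normal_right.1 (gen2 gQ ha)
      refine Commute.mul_left ?_ (c32 a' ha' b hb)
      obtain ⟨_, ⟨j, rfl⟩, b', hb', rfl⟩ := Subgroup.mem_sup_of_normal_right.1 (gen2 gQ hb)
      exact (Commute.zpow_zpow_self _ i j).mul_right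
        (c32 b' hb' _ (zpow_mem (lcs_step _ (lcs_one _)) i)).symm)
    (by
      rw [lm]
      rintro _ ⟨a, ha, rfl⟩
      rw [← map_pow, hex a ha, map_one])
    (M := M.map (QuotientGroup.mk' N)) (by rw [lm]; exact Subgroup.map_mono h2M)
    (fun g hg => by
      obtain ⟨g, rfl⟩ := sj g
      rw [← map_pow, hM g fun e => hg (Subgroup.mem_map_of_mem _ e), map_one])
    (Subgroup.mem_map_of_mem _ hx)
    (fun e => hy ((sup_le le_rfl (hN3.trans (h32.trans h2M)) : M ⊔ N ≤ M) (back M y e)))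
  have b1 : lcs K (p + 1) ≤ N := by
    rwa [lm, Subgroup.map_eq_bot_iff, QuotientGroup.ker_mk'] at a1
  obtain ⟨A, hA⟩ : ∃ A, A = Subgroup.zpowers (x ^ p) ⊔ N := ⟨_, rfl⟩
  have b2 : lcs K p ≤ A := fun k hk => by
    rw [← map_pow, ← MonoidHom.map_zpowers, lm] at a2
    exact hA ▸ back _ k (a2 (Subgroup.mem_map_of_mem _ hk))
  have b3 : ∀ u : K, u ^ p ∈ lcs K p ⊔ N := fun u => by
    have := a3 (QuotientGroup.mk' N u)
    rw [← map_pow, lm] at this
    exact back _ _ this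
  have hA3 : A ≤ lcs K 3 := hA ▸ sup_le ((Subgroup.zpowers_le).2
    ((sup_le ((lcs_ns K).anti h3p) hN3 : lcs K p ⊔ N ≤ lcs K 3) (b3 x))) hN3
  have cA : ∀ a ∈ A, ∀ b ∈ A, Commute a b := fun a ha b hb => by
    obtain ⟨_, ⟨i, rfl⟩, a', ha', rfl⟩ := Subgroup.mem_sup_of_normal_right.1 (hA ▸ ha)
    refine Commute.mul_left ?_ (cN a' ha' b (hA3 hb))
    obtain ⟨_, ⟨j, rfl⟩, b', hb', rfl⟩ := Subgroup.mem_sup_of_normal_right.1 (hA ▸ hb)
    exact (Commute.zpow_zpow_self _ i j).mul_right (cN b' hb' _ (hA3 (zpow_mem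
      (hA ▸ Subgroup.mem_sup_left (Subgroup.mem_zpowers _)) i))).symm
  have hT : ∀ w, 2 * p ≤ w → TT K w ≤ ⊥ := fun w hw => iSup_le fun q => by
    obtain ⟨⟨j, k⟩, h1, h2, h3⟩ := q
    simp only at h1 h2 h3 ⊢
    refine Subgroup.commutator_le.2 fun a ha b hb => commutatorElement_eq_one_iff_commute.2 ?_
    by_cases hj : p + 1 ≤ j
    · exact cN a (b1 ((lcs_ns K).anti hj ha)) b ((lcs_ns K).anti h2 hb)
    by_cases hk : p + 1 ≤ k
    · exact (cN b (b1 ((lcs_ns K).anti hk hb)) a ((lcs_ns K).anti h1 ha)).symm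
    exact cA a (b2 ((lcs_ns K).anti (by omega) ha)) b (b2 ((lcs_ns K).anti (by omega) hb))
  obtain ⟨V, _, _, ⟨B⟩⟩ := exists_BM (lcs K 3) (fun a ha b hb c hc =>
    cN _ (hN ▸ Subgroup.commutator_mem_commutator ha (h32 hb)) c hc)
    (fun a ha => hex a (h32 ha)) hh
  have top : lcs K (2 * p) = ⊥ := by
    refine down (fun j => lcs K j = ⊥) (2 * p) n
      (fun j hj => le_bot_iff.1 (hn ▸ (lcs_ns K).anti hj)) (fun j hj hj' => ?_) _ le_rfl
    obtain ⟨r, rfl⟩ : ∃ r, j = 3 + r := ⟨j - 3, by omega⟩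
    refine le_bot_iff.1 ((B.step (uf_TT K) hxy (h32.trans h2M) hM hx hy (by omega) le_rfl
      (fun u hu i hi v hv => ?_) (Or.inl (by omega))).trans (sup_le hj'.le (hT _ hj)))
    exact (B.D_mem _ u v).2 (Subgroup.mem_sup_right (le_TT K le_rfl hi (by omega)
      (Subgroup.commutator_mem_commutator hu hv)))
  have : IsMulCommutative A := ⟨⟨fun a b => Subtype.ext (cA a a.2 b b.2).eq⟩⟩
  refine core1 p A.subtype A.subtype_injective
    (fun a => Subtype.ext (hex a (h32 (hA3 a.2))))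
    (fun u => ⟨⟨u ^ p, (sup_le b2 (hA ▸ le_sup_right) : lcs K p ⊔ N ≤ A) (b3 u)⟩, rfl⟩) M hM
    (List.replicate (p - 1) y) (fun s hs hne e => hy ?_)
    (by rw [List.length_replicate, show p - 1 + p + 1 = 2 * p by omega, top]) hex hx
  obtain ⟨j, hj, rfl⟩ := List.sublist_replicate_iff.1 hs
  rw [List.reverse_replicate, List.prod_replicate] at e
  have hj0 : j ≠ 0 := fun h0 => hne (by rw [h0, List.replicate_zero])
  obtain ⟨m, -, hm⟩ := Nat.exists_mul_mod_eq_one_of_coprime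
    (Nat.coprime_of_lt_prime hj0 (show j < p by omega) hp.out).symm hp.out.one_lt
  have := M.pow_mem e m
  rwa [← pow_mul, pow_eq_pow_mod _ (hM y hy), hm, pow_one] at this

theorem two_gen {G : Type u} [Group G] [Group.IsNilpotent G] (A M : Subgroup G) [A.Normal]
    [M.Normal] (hAM : A ≤ M) (hA : ∀ g ∈ A, g ^ p = 1) (hM : ∀ g, g ∉ M → g ^ p = 1) {x y : G}
    (hH : ⁅⁅(Subgroup.closure {x, y}).lowerCentralSeries 2,
      (Subgroup.closure {x, y}).lowerCentralSeries 1⁆,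
      (Subgroup.closure {x, y}).lowerCentralSeries 2⁆ = ⊥)
    (hx : x ∈ M) (hy : y ∉ M) (h : ⁅y, x⁆ ∈ A) : Commute (x ^ p) y := by
  rcases hp.out.eq_two_or_odd' with rfl | ⟨k, hk⟩
  · have h1 := hM y hy
    have h2 := hM (x * y) fun e => hy ((M.mul_mem_cancel_left hx).1 e)
    have h3 : y * x * y⁻¹ = x⁻¹ := by
      rw [sq] at h1 h2
      rw [inv_eq_of_mul_eq_one_right h1, eq_inv_iff_mul_eq_one, ← mul_left_cancel_iff (a := x),
        ← mul_assoc, ← mul_assoc, ← mul_assoc, mul_assoc (x * y), h2, one_mul, mul_one]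
    have h4 := hA _ h
    rw [commutatorElement_def, h3, ← sq, sq, inv_pow] at h4
    rw [commute_iff_eq, eq_comm, ← mul_inv_eq_iff_eq_mul, ← conj_pow, h3, inv_pow]
    exact (inv_eq_of_mul_eq_one_right h4).symm.trans (inv_inv _)
  obtain ⟨K, hK⟩ : ∃ K, K = Subgroup.closure ({x, y} : Set G) := ⟨_, rfl⟩
  have hxK : x ∈ K := hK ▸ Subgroup.subset_closure (by simp)
  have hyK : y ∈ K := hK ▸ Subgroup.subset_closure (by simp)
  have hxy : Subgroup.closure {(⟨x, hxK⟩ : K), ⟨y, hyK⟩} = ⊤ := by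
    apply Subgroup.map_injective K.subtype_injective
    rw [MonoidHom.map_closure, Set.image_pair, ← MonoidHom.range_eq_map, Subgroup.range_subtype]
    exact hK.symm
  obtain ⟨n, hn⟩ := Subgroup.nilpotent_iff_lowerCentralSeries.1 (inferInstance : Group.IsNilpotent K)
  have h2 := gen1 hxy (A.subgroupOf K) h
  have := central_pow (h := k + 1) (by omega) hxy (n := n + 1) hn (by
      rw [← Subgroup.map_eq_bot_iff_of_injective _ K.subtype_injective, Subgroup.map_commutator,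
        Subgroup.map_commutator, lcs, lcs, Subgroup.top_subtype_lowerCentralSeries,
        Subgroup.top_subtype_lowerCentralSeries, hK]
      exact hH)
    (fun a ha => Subtype.ext (hA a (h2 ha))) (M := M.subgroupOf K) (fun a ha => hAM (h2 ha))
    (fun g hg => Subtype.ext (hM g hg)) hx hy
  exact (congrArg Subtype.val (Subgroup.mem_center_iff.1 this ⟨y, hyK⟩)).symm

theorem exp_all {G : Type u} [Group G] [Group.IsNilpotent G] (M : Subgroup G) [M.Normal]
    (hT : M ≠ ⊤) (hM : ∀ g, g ∉ M → g ^ p = 1)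
    (hH : ∀ x y : G, ⁅⁅(Subgroup.closure {x, y}).lowerCentralSeries 2,
      (Subgroup.closure {x, y}).lowerCentralSeries 1⁆,
      (Subgroup.closure {x, y}).lowerCentralSeries 2⁆ = ⊥)
    (hz : ∀ x : G, (∀ y, Commute (x ^ p) y) → x ^ p = 1) (g : G) : g ^ p = 1 := by
  obtain ⟨c, hc⟩ := Group.IsNilpotent.nilpotent G
  obtain ⟨t, ht⟩ : ∃ t, t ∉ M := by
    by_contra h
    push Not at h
    exact hT (eq_top_iff.2 fun t _ => h t)
  have key : ∀ n, ∀ x ∈ M ⊓ Subgroup.upperCentralSeries G n, x ^ p = 1 := by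
    intro n
    induction n with
    | zero =>
      intro x hx
      have := hx.2
      rw [Subgroup.upperCentralSeries_zero] at this
      rw [Subgroup.mem_bot.1 this, one_pow]
    | succ n ih =>
      intro x hx
      have h1 : ∀ y, y ∉ M → Commute (x ^ p) y := fun y hy => by
        refine two_gen (M ⊓ Subgroup.upperCentralSeries G n) M inf_le_left ih hM (hH x y) hx.1 hy
          ⟨M.mul_mem (Subgroup.Normal.conj_mem inferInstance _ hx.1 y) (M.inv_mem hx.1), ?_⟩
        have h2 := (Subgroup.upperCentralSeries G n).inv_mem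
          (Subgroup.mem_upperCentralSeries_succ_iff.1 hx.2 y)
        rwa [commutatorElement_inv] at h2
      refine hz x fun y => ?_
      by_cases hy : y ∈ M
      · have h2 := (h1 (y * t) fun h => ht ((M.mul_mem_cancel_left hy).1 h)).mul_right
          (h1 t ht).inv_right
        rwa [mul_inv_cancel_right] at h2
      · exact h1 y hy
  by_cases hg : g ∈ M
  · exact key c g ⟨hg, by rw [hc]; exact Subgroup.mem_top g⟩
  · exact hM g hg

end Pool.Agent.P.MP_3dfad8_al.H3
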