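import Pool.Agent.P.MP_3dfad8_al.H3.Rees
import Pool.Agent.P.MP_3dfad8_al.H3.Baer
import Pool.Agent.P.MP_3dfad8_al.Poly

/-! The filtration of the operators on the Baer module. -/

set_option linter.unusedSectionVars false

namespace Pool.Agent.P.MP_3dfad8_al.H3

open scoped commutatorElement

universe u

theorem lcs_one {K : Type*} [Group K] (g : K) : g ∈ lcs K 1 := Subgroup.mem_top g

theorem lcs_step {K : Type*} [Group K] {i : ℕ} (g : K) {u : K} (hu : u ∈ lcs K i) :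
    ⁅g, u⁆ ∈ lcs K (i + 1) := by
  rw [add_comm]
  exact (lcs_ns K).comm 1 i g u (lcs_one g) hu

/-- A second filtration, between consecutive terms of the lower central series. -/
structure UF {K : Type u} [Group K] (U : ℕ → Subgroup K) : Prop where
  normal : ∀ i, (U i).Normal
  le : ∀ i, lcs K (i + 1) ≤ U i
  comm : ∀ a i g u, g ∈ lcs K a → u ∈ U i → ⁅g, u⁆ ∈ U (i + a)

namespace BM

variable {p h : ℕ} [hp : Fact p.Prime] {K : Type u} [Group K] {Γ : Subgroup K} {V : Type u}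
  [AddCommGroup V] [Module (ZMod p) V] (B : BM p h Γ V) {U : ℕ → Subgroup K}

/-- Operators of degree `k`. -/
def EE (U : ℕ → Subgroup K) (k : ℕ) : Submodule (ZMod p) (Module.End (ZMod p) V) where
  carrier := {f | ∀ i, (∀ v ∈ B.sub (lcs K i), f v ∈ B.sub (lcs K (i + k))) ∧
    ∀ v ∈ B.sub (U i), f v ∈ B.sub (U (i + k))}
  zero_mem' := fun _ => ⟨fun _ _ => zero_mem _, fun _ _ => zero_mem _⟩
  add_mem' := fun h1 h2 i => ⟨fun v hv => add_mem ((h1 i).1 v hv) ((h2 i).1 v hv),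
    fun v hv => add_mem ((h1 i).2 v hv) ((h2 i).2 v hv)⟩
  smul_mem' := fun c _ h1 i => ⟨fun v hv => Submodule.smul_mem _ c ((h1 i).1 v hv),
    fun v hv => Submodule.smul_mem _ c ((h1 i).2 v hv)⟩

/-- Negligible operators of degree `k`. -/
def NN (U : ℕ → Subgroup K) (s k : ℕ) : Submodule (ZMod p) (Module.End (ZMod p) V) where
  carrier := {f | ∀ i, s ≤ i → ∀ v ∈ B.sub (lcs K i), f v ∈ B.sub (U (i + k))}
  zero_mem' := fun _ _ _ _ => zero_mem _
  add_mem' := fun h1 h2 i hi v hv => add_mem (h1 i hi v hv) (h2 i hi v hv)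
  smul_mem' := fun c _ h1 i hi v hv => Submodule.smul_mem _ c (h1 i hi v hv)

theorem fil (U : ℕ → Subgroup K) (s : ℕ) : Fil (B.EE U) (B.NN U s) where
  one := fun _ => ⟨fun _ hv => hv, fun _ hv => hv⟩
  mul := fun {a b f g} hf hg i => by
    rw [add_comm a, ← add_assoc]
    exact ⟨fun v hv => (hf _).1 _ ((hg i).1 v hv), fun v hv => (hf _).2 _ ((hg i).2 v hv)⟩
  left := fun {a b f g} hf hg i hi v hv => by
    rw [add_comm a, ← add_assoc]
    exact (hf _).2 _ (hg i hi v hv)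
  right := fun {a b f g} hf hg i hi v hv => by
    rw [add_comm a, ← add_assoc]
    exact hf _ (hi.trans (Nat.le_add_right i b)) _ ((hg i).1 v hv)

theorem E_le (hU : UF U) (s k : ℕ) : B.EE U (k + 1) ≤ B.NN U s k := fun _ hf i _ v hv =>
  hU.le _ ((hf i).1 v hv)

theorem D_E (hU : UF U) {a : ℕ} {g : K} (hg : g ∈ lcs K a) : B.ρ g - 1 ∈ B.EE U a := fun i => by
  have := hU.normal (i + a)
  refine ⟨fun v hv => (B.D_mem _ g v).2 ?_, fun v hv => (B.D_mem _ g v).2 (hU.comm a i g _ hg hv)⟩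
  rw [add_comm]
  exact (lcs_ns K).comm a i g _ hg hv

theorem ρ_E (hU : UF U) (g : K) : B.ρ g ∈ B.EE U 0 := fun i => by
  have := hU.normal i
  exact ⟨fun v hv => B.act_mem g hv, fun v hv => B.act_mem g hv⟩

theorem D_mul (g g' : K) :
    B.ρ (g * g') - 1 = B.ρ g - 1 + (B.ρ g' - 1) + (B.ρ g - 1) * (B.ρ g' - 1) := by
  rw [map_mul]
  noncomm_ring

theorem D_comm (g g' : K) : (B.ρ g - 1) * (B.ρ g' - 1) - (B.ρ g' - 1) * (B.ρ g - 1) =
    (B.ρ ⁅g, g'⁆ - 1) * B.ρ (g' * g) := by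
  rw [sub_mul (B.ρ ⁅g, g'⁆), ← map_mul, show ⁅g, g'⁆ * (g' * g) = g * g' by
    rw [commutatorElement_def]; group, map_mul, map_mul]
  noncomm_ring

theorem D_lin {i : ℕ} (g : K) {v : V} (hv : v ∈ B.sub (lcs K i)) :
    (B.ρ g - 1) v ∈ B.sub (lcs K (i + 1)) := (B.D_mem _ g v).2 (lcs_step g hv)

theorem gen {x y : K} (hxy : Subgroup.closure {x, y} = ⊤) {i : ℕ} (hi : 1 ≤ i)
    (hΓ : lcs K i ≤ Γ) (T : Submodule (ZMod p) V) (h2 : B.sub (lcs K (i + 2)) ≤ T)
    (hx : ∀ v ∈ B.sub (lcs K i), (B.ρ x - 1) v ∈ T)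
    (hy : ∀ v ∈ B.sub (lcs K i), (B.ρ y - 1) v ∈ T) : B.sub (lcs K (i + 1)) ≤ T := by
  have hΓ' : lcs K (i + 1) ≤ Γ := ((lcs_ns K).anti (Nat.le_succ i)).trans hΓ
  let C : Subgroup K :=
    { carrier := {g | ∀ v ∈ B.sub (lcs K i), (B.ρ g - 1) v ∈ T}
      one_mem' := fun v _ => by simp
      mul_mem' := fun {a b} ha hb v hv => by
        rw [B.D_mul]
        exact add_mem (add_mem (ha v hv) (hb v hv)) (h2 (B.D_lin a (B.D_lin b hv)))
      inv_mem' := fun {a} ha v hv => by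
        have e := B.D_mul a a⁻¹
        rw [mul_inv_cancel, map_one, sub_self, add_right_comm, eq_comm, add_eq_zero_iff_neg_eq] at e
        rw [← e]
        exact neg_mem (add_mem (ha v hv) (h2 (B.D_lin a (B.D_lin a⁻¹ hv)))) }
  have hC : ∀ g, g ∈ C := fun g => by
    have : ⊤ ≤ C := by
      rw [← hxy, Subgroup.closure_le]
      rintro _ (rfl | rfl)
      exacts [hx, hy]
    exact this trivial
  have cong : ∀ (v w : V) (c : K), c ∈ lcs K (i + 2) → B.ι w = B.ι v * c → w ∈ T → v ∈ T :=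
    fun v w c hc e hw => by
      have : w - v ∈ T := h2 ((B.sub_mem_iff _ w v).2 (by
        rw [e, QuotientGroup.mk_mul_of_mem _ hc]))
      simpa using sub_mem hw this
  let S : Subgroup K :=
    { carrier := {k | k ∈ lcs K (i + 1) ∧ ∀ v, B.ι v = k → v ∈ T}
      one_mem' := ⟨one_mem _, fun v hv => by
        rw [B.inj (hv.trans B.zero.symm)]; exact zero_mem _⟩
      mul_mem' := fun {a b} ha hb => ⟨mul_mem ha.1 hb.1, fun v hv => by
        obtain ⟨va, rfl⟩ := B.sur a (hΓ' ha.1)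
        obtain ⟨vb, rfl⟩ := B.sur b (hΓ' hb.1)
        exact cong v (va + vb) _ (pow_mem (lcs_step _ ha.1) h) (by rw [B.add, hv])
          (add_mem (ha.2 _ rfl) (hb.2 _ rfl))⟩
      inv_mem' := fun {a} ha => ⟨inv_mem ha.1, fun v hv => by
        obtain ⟨va, rfl⟩ := B.sur a (hΓ' ha.1)
        rw [B.inj (hv.trans (B.neg va).symm)]
        exact neg_mem (ha.2 _ rfl)⟩ }
  have hS : lcs K (i + 1) ≤ S := by
    obtain ⟨j, rfl⟩ : ∃ j, i = j + 1 := ⟨i - 1, by omega⟩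
    refine (Subgroup.commutator_le (H₁ := lcs K (j + 1)) (H₂ := ⊤)).2 fun u hu g _ => ?_
    rw [← commutatorElement_inv]
    refine S.inv_mem ⟨lcs_step g hu, fun v hv => ?_⟩
    obtain ⟨vu, rfl⟩ := B.sur u (hΓ hu)
    refine cong v _ _ (pow_mem (lcs_step (B.ι vu)⁻¹ (lcs_step g hu)) h) ?_ (hC g vu hu)
    rw [LinearMap.sub_apply, Module.End.one_apply, sub_eq_add_neg, B.add, B.neg, B.act, hv]
    congr 2
    simp only [commutatorElement_def]
    group
  exact fun v hv => (hS hv).2 v rfl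

theorem descent (hU : UF U) {x y : K} (hxy : Subgroup.closure {x, y} = ⊤) (n : ℕ) :
    ∀ {i : ℕ}, 1 ≤ i → lcs K i ≤ Γ → ∀ T : Submodule (ZMod p) V, B.sub (lcs K (i + n + 1)) ≤ T →
      (∀ f ∈ LL p (B.ρ x - 1) (B.ρ y - 1) ^ n, ∀ v ∈ B.sub (lcs K i), f v ∈ T) →
      B.sub (lcs K (i + n)) ≤ T := by
  induction n with
  | zero =>
    intro i _ _ T _ h1 v hv
    exact h1 1 (by rw [pow_zero]; exact Submodule.one_le.1 le_rfl) v hv
  | succ n ih =>
    intro i hi hΓ T h0 h1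
    rw [show i + (n + 1) = i + 1 + n by omega] at h0 ⊢
    refine ih (by omega) (((lcs_ns K).anti (Nat.le_succ i)).trans hΓ) T h0 fun f hf => ?_
    refine B.gen hxy hi hΓ (T.comap f) (fun v hv => h0 ?_) (fun v hv => h1 (f * _) ?_ v hv)
      fun v hv => h1 (f * _) ?_ v hv
    · rw [show i + 1 + n + 1 = i + 2 + n by omega]
      exact (((B.fil U 0).pow_le (B.D_E hU (lcs_one x)) (B.D_E hU (lcs_one y)) n hf) _).1 v hv
    · rw [pow_succ]
      exact Submodule.mul_mem_mul hf X_mem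
    · rw [pow_succ]
      exact Submodule.mul_mem_mul hf Y_mem

theorem step (hU : UF U) {x y : K} (hxy : Subgroup.closure {x, y} = ⊤) {M : Subgroup K}
    (hΓM : Γ ≤ M) (hM : ∀ g, g ∉ M → g ^ p = 1) (hx : x ∈ M) (hy : y ∉ M) {s : ℕ} (hs : 1 ≤ s)
    (hΓ : lcs K s ≤ Γ) (h3 : ∀ u ∈ lcs K 3, B.ρ u - 1 ∈ B.NN U s 3) {r : ℕ}
    (hr : 2 * p ≤ r + 3 ∨ B.ρ ⁅x, y⁆ = 1 ∧ p ≤ r + 1) : lcs K (s + r) ≤ U (s + r) := by
  have F := B.fil U s
  have hX := B.D_E hU (lcs_one x)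
  have hY := B.D_E hU (lcs_one y)
  have hc : ⁅x, y⁆ ∈ lcs K 2 := lcs_step x (lcs_one y)
  have cen : ∀ g : K, ((B.ρ x - 1) * (B.ρ y - 1) - (B.ρ y - 1) * (B.ρ x - 1)) * (B.ρ g - 1) -
      (B.ρ g - 1) * ((B.ρ x - 1) * (B.ρ y - 1) - (B.ρ y - 1) * (B.ρ x - 1)) ∈ B.NN U s 3 := by
    intro g
    have hg := B.D_E hU (lcs_one g)
    have h1 := F.mul (B.D_E hU hc) (B.D_E hU (lcs_one (y * x)))
    have a1 := F.mul h1 hg
    have a2 := F.mul hg h1
    rw [add_comm 1 (2 + 1)] at a2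
    have h2 := B.E_le hU s (2 + 1) (sub_mem a1 a2)
    have h4 := F.right (h3 _ ((lcs_ns K).comm 2 1 _ g hc (lcs_one g))) (B.ρ_E hU (g * ⁅x, y⁆))
    simp only [Nat.reduceAdd] at h2 h4
    rw [← B.D_comm] at h4
    have h5 := add_mem h2 h4
    rw [B.D_comm]
    refine (congrArg (· ∈ _) ?_).mp h5
    noncomm_ring
  have pw : ∀ n : ℕ, B.ρ (x ^ n) - 1 - n • (B.ρ x - 1) ∈ B.EE U 2 := fun n => by
    induction n with
    | zero => simp
    | succ n ih =>
      have a1 := F.mul (B.D_E hU (lcs_one (x ^ n))) hX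
      simp only [Nat.reduceAdd] at a1
      have := add_mem ih a1
      rw [pow_succ, B.D_mul, succ_nsmul]
      refine (congrArg (· ∈ _) ?_).mp this
      abel
  have key : B.sub (lcs K (s + r)) ≤ B.sub (U (s + r)) := by
    refine B.descent hU hxy r hs hΓ _ (B.sub_mono (hU.le _)) fun f hf v hv => ?_
    refine F.graded hX hY (cen x) (cen y) (fun a => ⟨_, B.D_E hU (lcs_one (x ^ a.val * y)),
      B.E_le hU s 1 ?_, B.engel hΓM hM fun e => hy ((M.mul_mem_cancel_left (M.pow_mem hx _)).1 e)⟩)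
      (hr.imp id fun e => ⟨?_, e.2⟩) hf s le_rfl v hv
    · have a1 := F.mul (B.D_E hU (lcs_one (x ^ a.val))) hY
      simp only [Nat.reduceAdd] at a1
      have := add_mem (pw a.val) a1
      rw [← Nat.cast_smul_eq_nsmul (ZMod p), ZMod.natCast_zmod_val] at this
      rw [B.D_mul]
      refine (congrArg (· ∈ _) ?_).mp this
      abel
    · rw [B.D_comm, e.1, sub_self, zero_mul]
      exact zero_mem _
  intro k hk
  obtain ⟨v, rfl⟩ := B.sur k (hΓ ((lcs_ns K).anti (Nat.le_add_right s r) hk))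
  exact key hk

end BM

end Pool.Agent.P.MP_3dfad8_al.H3
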