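import Mathlib

/-! Words in a Heisenberg algebra with an Engel condition. -/

set_option linter.unusedSectionVars false

namespace Pool.Agent.P.MP_3dfad8_al.H3

open Finset

variable {p : ℕ} [hp : Fact p.Prime]

theorem coef_mem {V : Type*} [AddCommGroup V] [Module (ZMod p) V] (S : Submodule (ZMod p) V)
    (c : ℕ → V) (h : ∀ a : ZMod p, ∑ i ∈ range p, a ^ i • c i ∈ S) {i : ℕ} (hi : i < p) :
    c i ∈ S := by
  rw [← Submodule.Quotient.mk_eq_zero, ← Submodule.mkQ_apply,
    ← Module.forall_dual_apply_eq_zero_iff (ZMod p)]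
  intro φ
  have h0 : ∑ j ∈ range p, Polynomial.monomial j (φ (S.mkQ (c j))) = 0 := by
    refine Polynomial.eq_zero_of_natDegree_lt_card_of_eval_eq_zero _ (f := id)
      Function.injective_id (fun a => ?_) ?_
    · have h1 := congrArg φ ((Submodule.Quotient.mk_eq_zero S).2 (h a))
      rw [← Submodule.mkQ_apply, map_sum, map_sum, map_zero] at h1
      rw [Polynomial.eval_finsetSum, ← h1]
      refine sum_congr rfl fun j _ => ?_
      rw [Polynomial.eval_monomial, map_smul, map_smul, smul_eq_mul, mul_comm, id]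
    · rw [ZMod.card]
      refine lt_of_le_of_lt (Polynomial.natDegree_sum_le_of_forall_le (n := p - 1) _ _
        fun j hj => (Polynomial.natDegree_monomial_le _).trans ?_) ?_
      · exact Nat.le_sub_one_of_lt (mem_range.1 hj)
      · exact Nat.sub_one_lt hp.out.ne_zero
  have h1 := congrArg (fun q => Polynomial.coeff q i) h0
  simpa [Polynomial.coeff_monomial, hi] using h1

variable {A : Type*} [Ring A] [Algebra (ZMod p) A]

/-- The span of the two letters. -/
def LL (p : ℕ) [Algebra (ZMod p) A] (X Y : A) : Submodule (ZMod p) A := Submodule.span _ {X, Y}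

/-- Words with one commutator taken out. -/
def SS (p : ℕ) [Algebra (ZMod p) A] (X Y : A) : ℕ → Submodule (ZMod p) A
  | 0 => ⊥
  | 1 => ⊥
  | m + 2 => (LL p X Y ^ m).map (LinearMap.mulLeft (ZMod p) (X * Y - Y * X))

variable {X Y : A}

theorem X_mem : X ∈ LL p X Y := Submodule.subset_span (by simp)

theorem Y_mem : Y ∈ LL p X Y := Submodule.subset_span (by simp)

theorem SS_mul {m r : ℕ} {s w : A} (hs : s ∈ SS p X Y m) (hw : w ∈ LL p X Y ^ r) :
    s * w ∈ SS p X Y (m + r) := by
  match m, hs with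
  | 0, hs => rw [(Submodule.mem_bot _).1 hs, zero_mul]; exact zero_mem _
  | 1, hs => rw [(Submodule.mem_bot _).1 hs, zero_mul]; exact zero_mem _
  | m + 2, ⟨u, hu, e⟩ =>
    rw [show m + 2 + r = m + r + 2 by omega]
    refine ⟨u * w, ?_, ?_⟩
    · rw [pow_add]
      exact Submodule.mul_mem_mul hu hw
    · rw [← e, LinearMap.mulLeft_apply, LinearMap.mulLeft_apply, mul_assoc _ u]

theorem mul_SS {a : A} (ha : a ∈ LL p X Y) (hc : Commute (X * Y - Y * X) a) {m : ℕ} {s : A}
    (hs : s ∈ SS p X Y m) : a * s ∈ SS p X Y (m + 1) := by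
  match m, hs with
  | 0, hs => rw [(Submodule.mem_bot _).1 hs, mul_zero]; exact zero_mem _
  | 1, hs => rw [(Submodule.mem_bot _).1 hs, mul_zero]; exact zero_mem _
  | m + 2, ⟨u, hu, e⟩ =>
    refine ⟨a * u, ?_, ?_⟩
    · rw [pow_succ']
      exact Submodule.mul_mem_mul ha hu
    · rw [← e, LinearMap.mulLeft_apply, LinearMap.mulLeft_apply, ← mul_assoc, hc.eq, mul_assoc]

theorem Y_pow (cX : Commute (X * Y - Y * X) X) (i j : ℕ) :
    Y * (X ^ i * Y ^ j) - X ^ i * Y ^ (j + 1) ∈ SS p X Y (i + j + 1) := by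
  have h : ∀ i, Y * X ^ i - X ^ i * Y ∈ SS p X Y (i + 1) := fun i => by
    induction i with
    | zero => simp
    | succ i ih =>
      have h1 := SS_mul ih (r := 1) (by rw [pow_one]; exact X_mem)
      have h2 : (X * Y - Y * X) * X ^ i ∈ SS p X Y (i + 2) :=
        ⟨_, Submodule.pow_mem_pow _ X_mem i, rfl⟩
      have h3 := sub_mem h1 h2
      rw [(cX.pow_right i).eq] at h3
      have e : Y * X ^ (i + 1) - X ^ (i + 1) * Y =
          (Y * X ^ i - X ^ i * Y) * X - X ^ i * (X * Y - Y * X) := by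
        rw [pow_succ]
        noncomm_ring
      rwa [e]
  have h1 := SS_mul (h i) (Submodule.pow_mem_pow _ (Y_mem (p := p)) j)
  rw [show i + 1 + j = i + j + 1 by omega, sub_mul, mul_assoc, mul_assoc, ← pow_succ'] at h1
  exact h1

theorem words_gen (cX : Commute (X * Y - Y * X) X) (cY : Commute (X * Y - Y * X) Y) (m : ℕ) :
    LL p X Y ^ m ≤
      Submodule.span (ZMod p) {w | ∃ i ≤ m, w = X ^ i * Y ^ (m - i)} ⊔ SS p X Y m := by
  induction m with
  | zero =>
    rw [pow_zero, Submodule.one_le]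
    exact Submodule.mem_sup_left (Submodule.subset_span ⟨0, le_rfl, by simp⟩)
  | succ m ih =>
    rw [pow_succ', Submodule.mul_le]
    intro a ha w hw
    obtain ⟨u, hu, s, hs, rfl⟩ := Submodule.mem_sup.1 (ih hw)
    obtain ⟨α, β, rfl⟩ := Submodule.mem_span_pair.1 ha
    rw [mul_add]
    refine add_mem ?_ (Submodule.mem_sup_right
      (mul_SS ha ((cX.smul_right α).add_right (cY.smul_right β)) hs))
    refine Submodule.span_induction (fun w hw => ?_) (by simp) (fun u v _ _ h1 h2 => ?_)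
      (fun c u _ h1 => ?_) hu
    · obtain ⟨i, hi, rfl⟩ := hw
      rw [add_mul, smul_mul_assoc, smul_mul_assoc]
      refine add_mem (Submodule.smul_mem _ _ (Submodule.mem_sup_left (Submodule.subset_span
        ⟨i + 1, by omega, by rw [← mul_assoc, ← pow_succ', Nat.add_sub_add_right]⟩)))
        (Submodule.smul_mem _ _ ?_)
      have h1 := Y_pow (p := p) cX i (m - i)
      rw [Nat.add_sub_cancel' hi] at h1
      rw [← add_sub_cancel (X ^ i * Y ^ (m - i + 1)) (Y * _)]
      exact add_mem (Submodule.mem_sup_left (Submodule.subset_span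
        ⟨i, by omega, by rw [show m + 1 - i = m - i + 1 by omega]⟩)) (Submodule.mem_sup_right h1)
    · rw [mul_add]
      exact add_mem h1 h2
    · rw [mul_smul_comm]
      exact Submodule.smul_mem _ _ h1

theorem words (cX : Commute (X * Y - Y * X) X) (cY : Commute (X * Y - Y * X) Y) {m : ℕ}
    (hm : m < p) (T : Submodule (ZMod p) A) (hS : SS p X Y m ≤ T)
    (hT : ∀ a : ZMod p, (a • X + Y) ^ m ∈ T) : LL p X Y ^ m ≤ T := by
  have bin : ∀ (a : ZMod p) (m : ℕ), (a • X + Y) ^ m -
      ∑ i ∈ range (m + 1), m.choose i • a ^ i • (X ^ i * Y ^ (m - i)) ∈ SS p X Y m := by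
    intro a m
    induction m with
    | zero => simp
    | succ m ih =>
      have h1 := mul_SS (add_mem (Submodule.smul_mem _ a X_mem) Y_mem)
        ((cX.smul_right a).add_right cY) ih
      have h2 : ∑ i ∈ range (m + 1), m.choose i • a ^ i •
          (Y * (X ^ i * Y ^ (m - i)) - X ^ i * Y ^ (m - i + 1)) ∈ SS p X Y (m + 1) :=
        sum_mem fun i hi => nsmul_mem (Submodule.smul_mem _ _ (by
          have := Y_pow (p := p) cX i (m - i)
          rwa [Nat.add_sub_cancel' (Nat.lt_succ_iff.1 (mem_range.1 hi))] at this)) _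
      have h3 := add_mem h1 h2
      rw [sum_choose_succ_nsmul (fun i j => a ^ i • (X ^ i * Y ^ j)) m]
      refine (congrArg (· ∈ _) ?_).mp h3
      rw [mul_sub, ← pow_succ', sub_add, ← sum_add_distrib, mul_sum, ← sum_sub_distrib]
      refine congrArg _ (sum_congr rfl fun i hi => ?_)
      rw [show m + 1 - i = m - i + 1 by have := mem_range.1 hi; omega]
      simp only [add_mul, mul_smul_comm, smul_mul_assoc, smul_sub, smul_add, pow_succ' X,
        pow_succ a, mul_smul, mul_assoc]
      abel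
  have mon : ∀ i ≤ m, X ^ i * Y ^ (m - i) ∈ T := fun i hi => by
    have h1 := coef_mem T (fun i => m.choose i • (X ^ i * Y ^ (m - i))) (fun a => by
      have h2 := sub_mem (hT a) (hS (bin a m))
      rw [sub_sub_cancel] at h2
      rw [← sum_subset (range_mono (Nat.succ_le_of_lt hm)) fun i _ hi => by
        rw [Nat.choose_eq_zero_of_lt (by simpa using hi), zero_smul, smul_zero]]
      simpa only [smul_comm (a ^ _)] using h2) (hi.trans_lt hm)
    have h2 : (m.choose i : ZMod p) ≠ 0 := fun h => by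
      rw [ZMod.natCast_eq_zero_iff] at h
      exact hp.out.coprime_iff_not_dvd.1 (hp.out.coprime_choose_of_lt hm hi) h
    rw [← Nat.cast_smul_eq_nsmul (ZMod p)] at h1
    exact (T.smul_mem_iff h2).1 h1
  refine (words_gen cX cY m).trans (sup_le (Submodule.span_le.2 ?_) hS)
  rintro _ ⟨i, hi, rfl⟩
  exact mon i hi

theorem engel (cX : Commute (X * Y - Y * X) X) (cY : Commute (X * Y - Y * X) Y) (a : ZMod p)
    (h : (a • X + Y) ^ (p - 1) = 0) (k : ℕ) :
    ∀ j, k + j = p - 1 → (X * Y - Y * X) ^ k * (a • X + Y) ^ j = 0 := by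
  obtain ⟨Z, hZ⟩ : ∃ Z, Z = X * Y - Y * X := ⟨_, rfl⟩
  obtain ⟨H, hH⟩ : ∃ H, H = a • X + Y := ⟨_, rfl⟩
  have cH : Commute Z H := by rw [hZ, hH]; exact (cX.smul_right a).add_right cY
  have e : X * H = H * X + Z := by
    rw [hZ, hH, mul_add, add_mul, mul_smul_comm, smul_mul_assoc]
    abel
  rw [← hZ] at cX ⊢
  rw [← hH] at h ⊢
  have d : ∀ j : ℕ, X * H ^ (j + 1) - H ^ (j + 1) * X = (j + 1) • (Z * H ^ j) := fun j => by
    induction j with
    | zero => simp [e]
    | succ j ih =>
      have e1 : X * H ^ (j + 1 + 1) - H ^ (j + 1 + 1) * X =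
          (X * H ^ (j + 1) - H ^ (j + 1) * X) * H + H ^ (j + 1) * (X * H - H * X) := by
        rw [pow_succ H (j + 1)]
        noncomm_ring
      rw [e1, ih, e, add_sub_cancel_left, ← (cH.pow_right _).eq, smul_mul_assoc, mul_assoc,
        ← pow_succ, succ_nsmul _ (j + 1)]
  induction k with
  | zero => intro j hj; rw [pow_zero, one_mul, ← zero_add j, hj, h]
  | succ k ih =>
    intro j hj
    have h1 := ih (j + 1) (by omega)
    have h2 : Z ^ k * (X * H ^ (j + 1) - H ^ (j + 1) * X) = 0 := by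
      rw [mul_sub, ← mul_assoc, (cX.pow_left k).eq, mul_assoc, h1, ← mul_assoc, h1]
      simp
    rw [d, mul_smul_comm, ← mul_assoc, ← pow_succ, ← Nat.cast_smul_eq_nsmul (ZMod p)] at h2
    refine (smul_eq_zero.1 h2).resolve_left fun h3 => ?_
    rw [ZMod.natCast_eq_zero_iff] at h3
    have := Nat.le_of_dvd (Nat.succ_pos j) h3
    have := hp.out.pos
    omega

theorem heis (cX : Commute (X * Y - Y * X) X) (cY : Commute (X * Y - Y * X) Y)
    (h : ∀ a : ZMod p, (a • X + Y) ^ (p - 1) = 0) (j : ℕ) : ∀ k r, k + j = p - 1 →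
      2 * p ≤ r + 2 * k + 3 → ∀ w ∈ LL p X Y ^ r, (X * Y - Y * X) ^ k * w = 0 := by
  have h2 := hp.out.two_le
  induction j with
  | zero =>
    intro k r hk _ w _
    have := engel cX cY 0 (h 0) k 0 hk
    rw [pow_zero, mul_one] at this
    rw [this, zero_mul]
  | succ j ih =>
    intro k r hk hr
    obtain ⟨r, rfl⟩ : ∃ r', r = j + 1 + r' := ⟨r - (j + 1), by omega⟩
    have h1 : ∀ s ∈ SS p X Y (j + 1 + r), (X * Y - Y * X) ^ k * s = 0 := by
      generalize j + 1 + r = t at hr
      intro s hs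
      match t, hs with
      | 0, hs => rw [(Submodule.mem_bot _).1 hs, mul_zero]
      | 1, hs => rw [(Submodule.mem_bot _).1 hs, mul_zero]
      | t + 2, ⟨u, hu, e⟩ =>
        rw [← e, LinearMap.mulLeft_apply, ← mul_assoc, ← pow_succ]
        exact ih (k + 1) t (by omega) (by omega) u hu
    have h3 : LL p X Y ^ (j + 1 + r) ≤
        LinearMap.ker (LinearMap.mulLeft (ZMod p) ((X * Y - Y * X) ^ k)) := by
      rw [pow_add, Submodule.mul_le]
      intro u hu w hw
      refine words cX cY (m := j + 1) (by omega) ((LinearMap.ker (LinearMap.mulLeft (ZMod p)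
        ((X * Y - Y * X) ^ k))).comap (LinearMap.mulRight (ZMod p) w)) (fun s hs => ?_)
        (fun a => ?_) hu
      · exact h1 _ (SS_mul hs hw)
      · change _ * (_ * w) = 0
        rw [← mul_assoc, engel cX cY a (h a) k _ hk, zero_mul]
    exact fun w hw => h3 hw

theorem heis_all (cX : Commute (X * Y - Y * X) X) (cY : Commute (X * Y - Y * X) Y)
    (h : ∀ a : ZMod p, (a • X + Y) ^ (p - 1) = 0) {r : ℕ} (hr : 2 * p ≤ r + 3) {w : A}
    (hw : w ∈ LL p X Y ^ r) : w = 0 := by
  have := heis cX cY h (p - 1) 0 r (zero_add _) hr w hw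
  rwa [pow_zero, one_mul] at this

theorem SS_bot (c : X * Y - Y * X = 0) (t : ℕ) : SS p X Y t ≤ ⊥ := by
  intro s hs
  match t, hs with
  | 0, hs => exact hs
  | 1, hs => exact hs
  | t + 2, ⟨u, _, e⟩ => rw [← e, LinearMap.mulLeft_apply, c, zero_mul]; rfl

theorem heis_comm (c : X * Y - Y * X = 0) (h : ∀ a : ZMod p, (a • X + Y) ^ (p - 1) = 0) {r : ℕ}
    (hr : p ≤ r + 1) {w : A} (hw : w ∈ LL p X Y ^ r) : w = 0 := by
  have h1 : LL p X Y ^ (p - 1) ≤ ⊥ :=
    words (by rw [c]; exact Commute.zero_left _) (by rw [c]; exact Commute.zero_left _)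
      (Nat.sub_one_lt hp.out.ne_zero) ⊥ (SS_bot c _) h
  obtain ⟨r, rfl⟩ : ∃ r', r = p - 1 + r' := ⟨r - (p - 1), by omega⟩
  rw [pow_add, le_bot_iff.1 h1, Submodule.bot_mul] at hw
  exact hw

end Pool.Agent.P.MP_3dfad8_al.H3
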