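import Pool.Agent.P.MP_3dfad8_al.H3.Heis

/-! The Heisenberg lemma in a filtered algebra. -/

namespace Pool.Agent.P.MP_3dfad8_al.H3

open Polynomial

variable {p : ℕ} [hp : Fact p.Prime] {R : Type*} [Ring R] [Algebra (ZMod p) R]

/-- A multiplicative filtration `E` with a graded ideal `N`. -/
structure Fil (E N : ℕ → Submodule (ZMod p) R) : Prop where
  one : 1 ∈ E 0
  mul : ∀ {a b f g}, f ∈ E a → g ∈ E b → f * g ∈ E (a + b)
  left : ∀ {a b f g}, f ∈ E a → g ∈ N b → f * g ∈ N (a + b)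
  right : ∀ {a b f g}, f ∈ N a → g ∈ E b → f * g ∈ N (a + b)

variable {E N : ℕ → Submodule (ZMod p) R}

theorem Fil.pow_le (F : Fil E N) {X Y : R} (hX : X ∈ E 1) (hY : Y ∈ E 1) (r : ℕ) :
    LL p X Y ^ r ≤ E r := by
  induction r with
  | zero => rw [pow_zero, Submodule.one_le]; exact F.one
  | succ r ih =>
    rw [pow_succ, Submodule.mul_le]
    intro u hu a ha
    obtain ⟨α, β, rfl⟩ := Submodule.mem_span_pair.1 ha
    exact F.mul (ih hu) (add_mem (Submodule.smul_mem _ _ hX) (Submodule.smul_mem _ _ hY))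

/-- The Rees algebra. -/
def Fil.rees (F : Fil E N) : Subalgebra (ZMod p) R[X] where
  carrier := {q | ∀ k, q.coeff k ∈ E k}
  add_mem' := fun h1 h2 k => by rw [coeff_add]; exact add_mem (h1 k) (h2 k)
  mul_mem' := fun h1 h2 k => by
    rw [coeff_mul]
    refine sum_mem fun c hc => ?_
    rw [← Finset.HasAntidiagonal.mem_antidiagonal.1 hc]
    exact F.mul (h1 _) (h2 _)
  algebraMap_mem' := fun r k => by
    rw [Polynomial.algebraMap_apply, coeff_C]
    split_ifs with h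
    · rw [h, Algebra.algebraMap_eq_smul_one]
      exact Submodule.smul_mem _ _ F.one
    · exact zero_mem _

/-- The ideal of negligible elements. -/
def Fil.idl (F : Fil E N) : Ideal F.rees where
  carrier := {q | ∀ k, (q : R[X]).coeff k ∈ N k}
  add_mem' := fun h1 h2 k => by
    rw [Subalgebra.coe_add, coeff_add]; exact add_mem (h1 k) (h2 k)
  zero_mem' := fun k => by simp
  smul_mem' := fun c q h k => by
    rw [smul_eq_mul, Subalgebra.coe_mul, coeff_mul]
    refine sum_mem fun d hd => ?_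
    rw [← Finset.HasAntidiagonal.mem_antidiagonal.1 hd]
    exact F.left (c.2 _) (h _)

instance (F : Fil E N) : F.idl.IsTwoSided := ⟨fun c h k => by
  rw [Subalgebra.coe_mul, coeff_mul]
  refine sum_mem fun d hd => ?_
  rw [← Finset.HasAntidiagonal.mem_antidiagonal.1 hd]
  exact F.right (h _) (c.2 _)⟩

theorem mono_mem {E : ℕ → Submodule (ZMod p) R} {k : ℕ} {f : R} (h : f ∈ E k) (j : ℕ) :
    (monomial k f).coeff j ∈ E j := by
  rw [coeff_monomial]
  split_ifs with e
  · rwa [← e]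
  · exact zero_mem _

/-- The symbol of an element of degree `k`. -/
noncomputable def Fil.sym (F : Fil E N) (k : ℕ) (f : R) (h : f ∈ E k) : F.rees ⧸ F.idl :=
  Ideal.Quotient.mkₐ (ZMod p) F.idl ⟨monomial k f, mono_mem h⟩

theorem Fil.sym_mul (F : Fil E N) {a b : ℕ} {f g : R} (hf : f ∈ E a) (hg : g ∈ E b) :
    F.sym a f hf * F.sym b g hg = F.sym (a + b) (f * g) (F.mul hf hg) := by
  unfold Fil.sym
  rw [← map_mul]
  exact congrArg _ (Subtype.ext (monomial_mul_monomial _ _ _ _))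

theorem Fil.sym_add (F : Fil E N) {a : ℕ} {f g : R} (hf : f ∈ E a) (hg : g ∈ E a) :
    F.sym a f hf + F.sym a g hg = F.sym a (f + g) (add_mem hf hg) := by
  unfold Fil.sym
  rw [← map_add]
  exact congrArg _ (Subtype.ext (map_add (monomial a) _ _).symm)

theorem Fil.sym_sub (F : Fil E N) {a : ℕ} {f g : R} (hf : f ∈ E a) (hg : g ∈ E a) :
    F.sym a f hf - F.sym a g hg = F.sym a (f - g) (sub_mem hf hg) := by
  unfold Fil.sym
  rw [← map_sub]
  exact congrArg _ (Subtype.ext (map_sub (monomial a) _ _).symm)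

theorem Fil.sym_smul (F : Fil E N) {a : ℕ} {f : R} (c : ZMod p) (hf : f ∈ E a) :
    c • F.sym a f hf = F.sym a (c • f) (Submodule.smul_mem _ _ hf) := by
  unfold Fil.sym
  rw [← map_smul]
  exact congrArg _ (Subtype.ext (smul_monomial _ _ _))

theorem Fil.sym_zero (F : Fil E N) {a : ℕ} {f : R} (hf : f ∈ E a) :
    F.sym a f hf = 0 ↔ f ∈ N a := by
  unfold Fil.sym
  rw [Ideal.Quotient.mkₐ_eq_mk, Ideal.Quotient.eq_zero_iff_mem]
  refine ⟨fun h => ?_, fun h => mono_mem h⟩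
  have := h a
  rwa [coeff_monomial, if_pos rfl] at this

theorem Fil.sym_one (F : Fil E N) : F.sym 0 1 F.one = 1 := by
  unfold Fil.sym
  rw [← map_one (Ideal.Quotient.mkₐ (ZMod p) F.idl)]
  rfl

theorem Fil.graded (F : Fil E N) {X Y : R} (hX : X ∈ E 1) (hY : Y ∈ E 1)
    (cX : (X * Y - Y * X) * X - X * (X * Y - Y * X) ∈ N 3)
    (cY : (X * Y - Y * X) * Y - Y * (X * Y - Y * X) ∈ N 3)
    (h : ∀ a : ZMod p, ∃ D ∈ E 1, D - (a • X + Y) ∈ N 1 ∧ D ^ (p - 1) = 0) {r : ℕ}
    (hr : 2 * p ≤ r + 3 ∨ X * Y - Y * X ∈ N 2 ∧ p ≤ r + 1) {w : R} (hw : w ∈ LL p X Y ^ r) :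
    w ∈ N r := by
  have tr : ∀ r, ∀ w ∈ LL p X Y ^ r, ∀ hw : w ∈ E r,
      F.sym r w hw ∈ LL p (F.sym 1 X hX) (F.sym 1 Y hY) ^ r := fun r => by
    induction r with
    | zero =>
      intro w hw hw'
      rw [pow_zero, Submodule.mem_one] at hw ⊢
      obtain ⟨c, rfl⟩ := hw
      refine ⟨c, ?_⟩
      rw [Algebra.algebraMap_eq_smul_one, ← F.sym_one, F.sym_smul]
      simp only [Algebra.algebraMap_eq_smul_one]
    | succ r ih =>
      intro w hw
      rw [pow_succ] at hw ⊢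
      have key : w ∈ E (r + 1) ∧ ∀ hw : w ∈ E (r + 1), F.sym (r + 1) w hw ∈
          LL p (F.sym 1 X hX) (F.sym 1 Y hY) ^ r * LL p (F.sym 1 X hX) (F.sym 1 Y hY) := by
        refine Submodule.mul_induction_on hw (fun u hu a ha => ?_) fun u v h1 h2 => ?_
        · obtain ⟨α, β, rfl⟩ := Submodule.mem_span_pair.1 ha
          have h1 := F.pow_le hX hY r hu
          have h2 := add_mem (Submodule.smul_mem _ α hX) (Submodule.smul_mem _ β hY)
          refine ⟨F.mul h1 h2, fun _ => ?_⟩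
          rw [← F.sym_mul h1 h2, ← F.sym_add (Submodule.smul_mem _ α hX)
            (Submodule.smul_mem _ β hY), ← F.sym_smul α hX, ← F.sym_smul β hY]
          exact Submodule.mul_mem_mul (ih u hu h1)
            (add_mem (Submodule.smul_mem _ _ X_mem) (Submodule.smul_mem _ _ Y_mem))
        · refine ⟨add_mem h1.1 h2.1, fun _ => ?_⟩
          rw [← F.sym_add h1.1 h2.1]
          exact add_mem (h1.2 _) (h2.2 _)
      exact key.2
  have hZ := sub_mem (F.mul hX hY) (F.mul hY hX)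
  have eZ : F.sym 1 X hX * F.sym 1 Y hY - F.sym 1 Y hY * F.sym 1 X hX = F.sym 2 _ hZ := by
    rw [F.sym_mul, F.sym_mul, F.sym_sub]
  have en : ∀ a : ZMod p, (a • F.sym 1 X hX + F.sym 1 Y hY) ^ (p - 1) = 0 := fun a => by
    obtain ⟨D, hD, h1, h2⟩ := h a
    have e : a • F.sym 1 X hX + F.sym 1 Y hY = F.sym 1 D hD := by
      rw [F.sym_smul, F.sym_add, eq_comm, ← sub_eq_zero, F.sym_sub, F.sym_zero]
      exact h1
    rw [e]
    unfold Fil.sym
    rw [← map_pow, ← map_zero (Ideal.Quotient.mkₐ (ZMod p) F.idl)]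
    refine congrArg _ (Subtype.ext ?_)
    rw [Subalgebra.coe_pow, monomial_pow, h2, map_zero, Subalgebra.coe_zero]
  have hw' := F.pow_le hX hY r hw
  rw [← F.sym_zero hw']
  rcases hr with hr | hr
  · refine heis_all ?_ ?_ en hr (tr r w hw hw')
    · rw [eZ, commute_iff_eq, ← sub_eq_zero, F.sym_mul, F.sym_mul]
      exact (F.sym_sub (a := 3) _ _).trans ((F.sym_zero _).2 cX)
    · rw [eZ, commute_iff_eq, ← sub_eq_zero, F.sym_mul, F.sym_mul]
      exact (F.sym_sub (a := 3) _ _).trans ((F.sym_zero _).2 cY)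
  · exact heis_comm (eZ.trans ((F.sym_zero _).2 hr.1)) en hr.2 (tr r w hw hw')

end Pool.Agent.P.MP_3dfad8_al.H3
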