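import Pool.Agent.P.MP_3dfad8_al.H3.Filt
import Pool.Agent.P.MP_3dfad8_al.Core

/-! Two-generator groups with abelian derived subgroup. -/

set_option linter.unusedSectionVars false

namespace Pool.Agent.P.MP_3dfad8_al.H3

open Finset
open scoped commutatorElement

universe u

variable {p : ℕ} [hp : Fact p.Prime]

theorem pow_poly {R : Type*} [Ring R] [Algebra (ZMod p) R] {s t : R} (c : Commute s t) :
    ∑ k ∈ range p, s ^ k * ∑ i ∈ range k, t ^ i = ∑ i ∈ range (p - 1),
      (p - 1).choose i • ((s - 1) ^ i * s ^ (p - 1 - i) * (t - 1) ^ (p - 2 - i)) := by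
  have key : ∀ s t : Polynomial (Polynomial (ZMod p)), t - 1 ≠ 0 →
      ∑ k ∈ range p, s ^ k * ∑ i ∈ range k, t ^ i = ∑ i ∈ range (p - 1),
      (p - 1).choose i • ((s - 1) ^ i * s ^ (p - 1 - i) * (t - 1) ^ (p - 2 - i)) := by
    intro s t ht
    refine mul_right_cancel₀ ht ?_
    have e1 : (∑ k ∈ range p, s ^ k * ∑ i ∈ range k, t ^ i) * (t - 1) =
        (s * t - 1) ^ (p - 1) - (s - 1) ^ (p - 1) := by
      rw [geom_char (p := p), geom_char (p := p), sum_mul, ← sum_sub_distrib]
      refine sum_congr rfl fun k _ => ?_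
      rw [mul_assoc, geom_sum_mul, mul_pow, mul_sub, mul_one]
    rw [e1, show s * t - 1 = s - 1 + s * (t - 1) by ring, add_pow, sum_range_succ, Nat.sub_self,
      pow_zero, mul_one, Nat.choose_self, Nat.cast_one, mul_one, add_sub_cancel_right, sum_mul]
    refine sum_congr rfl fun i hi => ?_
    have := mem_range.1 hi
    rw [mul_pow, show p - 1 - i = p - 2 - i + 1 by omega, pow_succ (t - 1), nsmul_eq_mul]
    ring
  have hc : ∀ a, Commute ((Polynomial.aeval s : Polynomial (ZMod p) →ₐ[ZMod p] R).toRingHom a) t :=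
    fun a => by
      induction a using Polynomial.induction_on' with
      | add a b ha hb => rw [map_add]; exact ha.add_left hb
      | monomial n a =>
        change Commute (Polynomial.aeval s _) t
        rw [Polynomial.aeval_monomial]
        exact (Algebra.commute_algebraMap_left a t).mul_left (c.pow_left n)
  have := congrArg (Polynomial.eval₂RingHom' _ t hc) (key (Polynomial.C Polynomial.X) Polynomial.X
    (by simpa using Polynomial.X_sub_C_ne_zero (1 : Polynomial (ZMod p))))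
  simp only [map_sum, map_mul, map_pow, map_sub, map_one, map_nsmul] at this
  simpa using this

theorem gen1 {K : Type*} [Group K] {x y : K} (hxy : Subgroup.closure {x, y} = ⊤)
    (S : Subgroup K) [S.Normal] (h : ⁅y, x⁆ ∈ S) : lcs K 2 ≤ S := by
  have c0 : Commute (y : K ⧸ S) (x : K ⧸ S) := by
    rw [← commutatorElement_eq_one_iff_commute]
    exact (map_commutatorElement (QuotientGroup.mk' S) y x).symm.trans
      ((QuotientGroup.eq_one_iff _).2 h)
  have all : ∀ a : K ⧸ S, Commute a (x : K ⧸ S) → Commute a (y : K ⧸ S) →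
      ∀ k : K, Commute a (k : K ⧸ S) := fun a h1 h2 k => by
    have : ⊤ ≤ (Subgroup.centralizer {a}).comap (QuotientGroup.mk' S) := by
      rw [← hxy, Subgroup.closure_le]
      rintro _ (rfl | rfl)
      exacts [Subgroup.mem_centralizer_singleton_iff.2 h1.symm.eq,
        Subgroup.mem_centralizer_singleton_iff.2 h2.symm.eq]
    exact (Subgroup.mem_centralizer_singleton_iff.1 (this (Subgroup.mem_top k))).symm
  refine (Subgroup.commutator_le (H₁ := ⊤) (H₂ := ⊤)).2 fun a _ b _ => ?_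
  rw [← QuotientGroup.eq_one_iff]
  exact (map_commutatorElement (QuotientGroup.mk' S) a b).trans
    (commutatorElement_eq_one_iff_commute.2 (all a (all x (Commute.refl _) c0.symm a).symm
      (all y c0 (Commute.refl _) a).symm b))

theorem gen2 {K : Type*} [Group K] {x y : K} (hxy : Subgroup.closure {x, y} = ⊤) :
    lcs K 2 ≤ Subgroup.zpowers ⁅y, x⁆ ⊔ lcs K 3 := by
  obtain ⟨S, hS⟩ : ∃ S, S = Subgroup.zpowers ⁅y, x⁆ ⊔ lcs K 3 := ⟨_, rfl⟩
  have h2 : S ≤ lcs K 2 := by
    rw [hS]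
    exact sup_le ((Subgroup.zpowers_le).2 (lcs_step y (lcs_one x))) ((lcs_ns K).anti (by omega))
  have h3 : lcs K 3 ≤ S := hS ▸ le_sup_right
  have hn : S.Normal := ⟨fun n hn g => by
    have := S.mul_mem (h3 (lcs_step g (h2 hn))) hn
    rwa [commutatorElement_def, inv_mul_cancel_right] at this⟩
  rw [← hS]
  exact gen1 hxy S (hS ▸ Subgroup.mem_sup_left (Subgroup.mem_zpowers _))

theorem Fil.pow {R : Type*} [Ring R] [Algebra (ZMod p) R] {E N : ℕ → Submodule (ZMod p) R}
    (F : Fil E N) {f : R} (hf : f ∈ E 1) (n : ℕ) : f ^ n ∈ E n :=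
  F.pow_le hf hf n (Submodule.pow_mem_pow _ X_mem n)

theorem pow_eig {V : Type*} [AddCommGroup V] [Module (ZMod p) V] {f : Module.End (ZMod p) V}
    {e : V} {c : ZMod p} (h : f e = c • e) (n : ℕ) : (f ^ n) e = c ^ n • e := by
  induction n with
  | zero => simp
  | succ n ih => rw [pow_succ, Module.End.mul_apply, h, map_smul, ih, smul_smul, pow_succ']

theorem uf_lcs (K : Type u) [Group K] : UF fun i => lcs K (i + 1) where
  normal := fun _ => inferInstance
  le := fun _ => le_rfl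
  comm := fun a i g u hg hu => by
    have := (lcs_ns K).comm a (i + 1) g u hg hu
    rwa [show a + (i + 1) = i + a + 1 by omega] at this

theorem two_step {h : ℕ} (hh : 2 * h = p + 1) {Q : Type u} [Group Q] {x y : Q}
    (hxy : Subgroup.closure {x, y} = ⊤) {n : ℕ} (hn : lcs Q n = ⊥)
    (hab : ∀ a ∈ lcs Q 2, ∀ b ∈ lcs Q 2, Commute a b) (hex : ∀ a ∈ lcs Q 2, a ^ p = 1)
    {M : Subgroup Q} (h2M : lcs Q 2 ≤ M) (hM : ∀ g, g ∉ M → g ^ p = 1) (hx : x ∈ M)
    (hy : y ∉ M) : lcs Q (p + 1) = ⊥ ∧ lcs Q p ≤ Subgroup.zpowers (x ^ p) ∧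
      ∀ u : Q, u ^ p ∈ lcs Q p := by
  have h2p := hp.out.two_le
  obtain ⟨V, _, _, ⟨B⟩⟩ := exists_BM (lcs Q 2) (fun a ha b hb c _ => by
    rw [commutatorElement_eq_one_iff_commute.2 (hab a ha b hb)]; exact Commute.one_left c) hex hh
  have hU := uf_lcs Q
  have F := B.fil (fun i => lcs Q (i + 1)) 2
  have add : ∀ a b, B.ι (a + b) = B.ι a * B.ι b := fun a b => by
    rw [B.add, commutatorElement_eq_one_iff_commute.2 (hab _ (B.mem b) _ (B.mem a)), one_pow,
      mul_one]
  have triv : ∀ u ∈ lcs Q 2, B.ρ u = 1 := fun u hu => LinearMap.ext fun v => B.inj (by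
    rw [B.act, (hab u hu _ (B.mem v)).eq, mul_inv_cancel_right, Module.End.one_apply])
  have com : ∀ g g' : Q, Commute (B.ρ g) (B.ρ g') := fun g g' => by
    have e : g * g' = ⁅g, g'⁆ * (g' * g) := by rw [commutatorElement_def]; group
    rw [commute_iff_eq, ← map_mul, e, map_mul, triv _ (lcs_step g (lcs_one g')), one_mul, map_mul]
  have top : lcs Q (p + 1) = ⊥ := by
    refine down (fun j => lcs Q j = ⊥) (p + 1) n
      (fun j hj => le_bot_iff.1 (hn ▸ (lcs_ns Q).anti hj)) (fun j hj hj' => ?_) _ le_rfl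
    obtain ⟨r, rfl⟩ : ∃ r, j = 2 + r := ⟨j - 2, by omega⟩
    refine le_bot_iff.1 (hj' ▸ B.step hU hxy h2M hM hx hy (by omega) le_rfl (fun u hu => ?_)
      (Or.inr ⟨triv _ (lcs_step x (lcs_one y)), by omega⟩))
    rw [triv u ((lcs_ns Q).anti (by omega) hu), sub_self]
    exact zero_mem _
  have pw : ∀ (u : Q) (d : V), u ∈ M → B.ι d = ⁅y, u⁆ → u ^ p = B.ι (-∑ i ∈ range (p - 1),
      (p - 1).choose i • ((B.ρ u - 1) ^ i * B.ρ u ^ (p - 1 - i) *
        (B.ρ y - 1) ^ (p - 2 - i)) d) := by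
    intro u d hu hd
    have e1 : ∀ k, B.ι ((∑ i ∈ range k, B.ρ y ^ i) d) = ⁅y ^ k, u⁆ := fun k => by
      induction k with
      | zero => simp [B.zero]
      | succ k ih =>
        rw [sum_range_succ, LinearMap.add_apply, add_comm, add, ih, ← map_pow, B.act, hd,
          pow_succ, commutatorElement_mul_left_eq_conj_mul]
    have e2 : ∀ n, (u * y) ^ n = B.ι ((∑ k ∈ range n, B.ρ u ^ k * ∑ i ∈ range k, B.ρ y ^ i) d) *
        u ^ n * y ^ n := fun n => by
      induction n with
      | zero => simp [B.zero]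
      | succ n ih =>
        rw [sum_range_succ, LinearMap.add_apply, add, pow_succ, ih, Module.End.mul_apply,
          ← map_pow, B.act, e1, commutatorElement_def, pow_succ u, pow_succ y]
        group
    have e3 := e2 p
    rw [hM y hy, hM _ fun e => hy ((M.mul_mem_cancel_left hu).1 e), mul_one, pow_poly (com u y),
      LinearMap.sum_apply] at e3
    rw [B.neg]
    simp only [LinearMap.smul_apply] at e3
    exact eq_inv_of_mul_eq_one_right e3.symm
  have pm : ∀ u : Q, u ^ p ∈ lcs Q p := fun u => by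
    by_cases hu : u ∈ M
    · obtain ⟨d, hd⟩ := B.sur _ (lcs_step y (lcs_one u))
      rw [pw u d hu hd]
      refine neg_mem (s := B.sub (lcs Q p)) (sum_mem fun i hi => nsmul_mem ?_ _)
      have := mem_range.1 hi
      have h1 := F.mul (F.mul (F.pow (B.D_E hU (lcs_one u)) i) (B.ρ_E hU (u ^ (p - 1 - i))))
        (F.pow (B.D_E hU (lcs_one y)) (p - 2 - i))
      have h2 := (h1 2).1 d (B.mem d)
      rwa [show 2 + (i + 0 + (p - 2 - i)) = p by omega, map_pow] at h2
    · rw [hM u hu]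
      exact one_mem _
  refine ⟨top, ?_, pm⟩
  obtain ⟨d, hd⟩ := B.sur _ (lcs_step y (lcs_one x))
  have hX := B.D_E hU (lcs_one x)
  have hY := B.D_E hU (lcs_one y)
  have mon : ∀ i ≤ p - 2, ((B.ρ x - 1) ^ i * (B.ρ y - 1) ^ (p - 2 - i)) d ∈
      B.sub (Subgroup.zpowers (x ^ p)) := by
    intro i hi
    have h1 := coef_mem (B.sub (Subgroup.zpowers (x ^ p))) (fun i => match i with
      | 0 => 0
      | i + 1 => (p - 1).choose i • ((B.ρ x - 1) ^ i * (B.ρ y - 1) ^ (p - 2 - i)) d) (fun a => ?_)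
      (i := i + 1) (by omega)
    · have h2 : ((p - 1).choose i : ZMod p) ≠ 0 := fun h => by
        rw [ZMod.natCast_eq_zero_iff] at h
        exact hp.out.coprime_iff_not_dvd.1 (hp.out.coprime_choose_of_lt (by omega) (by omega)) h
      simp only [← Nat.cast_smul_eq_nsmul (ZMod p)] at h1
      exact (Submodule.smul_mem_iff _ h2).1 h1
    have e1 : ∀ k, B.ι ((∑ i ∈ range k, B.ρ x ^ i) d) = ⁅y, x ^ k⁆ := fun k => by
      induction k with
      | zero => simp [B.zero]
      | succ k ih =>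
        rw [sum_range_succ, LinearMap.add_apply, add, ih, ← map_pow, B.act, hd,
          pow_succ, commutatorElement_mul_right_eq_mul_conj]
        group
    have e2 := pw (x ^ a.val) _ (M.pow_mem hx _) (e1 a.val)
    have e3 : -∑ i ∈ range (p - 1), (p - 1).choose i • ((B.ρ (x ^ a.val) - 1) ^ i *
        B.ρ (x ^ a.val) ^ (p - 1 - i) * (B.ρ y - 1) ^ (p - 2 - i))
        ((∑ i ∈ range a.val, B.ρ x ^ i) d) ∈ B.sub (Subgroup.zpowers (x ^ p)) := by
      rw [B.mem_sub, ← e2, ← pow_mul, mul_comm, pow_mul]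
      exact pow_mem (Subgroup.mem_zpowers _) _
    rw [neg_mem_iff] at e3
    rw [show range p = range (p - 1 + 1) by rw [Nat.sub_add_cancel hp.out.pos], sum_range_succ',
      smul_zero, add_zero]
    refine (congrArg (· ∈ _) (sum_congr rfl fun i hi => ?_)).mp e3
    have := mem_range.1 hi
    obtain ⟨σ, hσ⟩ : ∃ σ, σ = ∑ i ∈ range a.val, B.ρ x ^ i := ⟨_, rfl⟩
    have cx : Commute σ (B.ρ x - 1) := hσ ▸ Commute.sum_left _ _ _ fun i _ =>
      (Commute.pow_self _ _).sub_right (Commute.one_right _)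
    have cy : Commute σ (B.ρ y - 1) := hσ ▸ Commute.sum_left _ _ _ fun i _ =>
      ((com x y).pow_left _).sub_right (Commute.one_right _)
    have cs : Commute (B.ρ x - 1) (B.ρ (x ^ a.val)) := (com _ _).sub_left (Commute.one_left _)
    have fx : B.ρ x (((B.ρ x - 1) ^ i * (B.ρ y - 1) ^ (p - 2 - i)) d) = (1 : ZMod p) •
        ((B.ρ x - 1) ^ i * (B.ρ y - 1) ^ (p - 2 - i)) d := by
      have h3 := B.D_lin x (((F.mul (F.pow hX i) (F.pow hY (p - 2 - i))) 2).1 d (B.mem d))
      rw [show 2 + (i + (p - 2 - i)) = p by omega, top] at h3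
      rw [one_smul, ← sub_eq_zero]
      exact B.sub_bot h3
    have fσ : σ (((B.ρ x - 1) ^ i * (B.ρ y - 1) ^ (p - 2 - i)) d) = a •
        ((B.ρ x - 1) ^ i * (B.ρ y - 1) ^ (p - 2 - i)) d := by
      rw [hσ, LinearMap.sum_apply, sum_congr rfl fun k _ => pow_eig fx k]
      simp only [one_pow, one_smul, sum_const, card_range]
      rw [← Nat.cast_smul_eq_nsmul (ZMod p), ZMod.natCast_zmod_val]
    have e4 : B.ρ (x ^ a.val) - 1 = σ * (B.ρ x - 1) := by rw [hσ, geom_sum_mul, map_pow]
    rw [← hσ, ← Module.End.mul_apply, e4, cx.mul_pow, mul_assoc (σ ^ i),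
      (cs.pow_pow i (p - 1 - i)).eq, mul_assoc, mul_assoc, mul_assoc, ← mul_assoc (_ ^ i) _ σ,
      ← ((cx.pow_right i).mul_right (cy.pow_right _)).eq, Module.End.mul_apply,
      Module.End.mul_apply, Module.End.mul_apply, fσ, map_smul, map_pow, ← pow_mul, pow_eig fx,
      one_pow, one_smul, map_smul, pow_eig fσ, smul_smul, ← pow_succ', smul_comm]
  have key : B.sub (lcs Q (2 + (p - 2))) ≤ B.sub (Subgroup.zpowers (x ^ p)) := by
    refine B.descent hU hxy (p - 2) (by omega) le_rfl _ ?_ fun f hf v hv => ?_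
    · rw [show 2 + (p - 2) + 1 = p + 1 by omega, top]
      exact B.sub_mono bot_le
    let S : Subgroup Q :=
      { carrier := {k | ∃ v, f v ∈ B.sub (Subgroup.zpowers (x ^ p)) ∧ B.ι v = k}
        one_mem' := ⟨0, by simp, B.zero⟩
        mul_mem' := by
          rintro _ _ ⟨a, ha, rfl⟩ ⟨b, hb, rfl⟩
          exact ⟨a + b, by rw [map_add]; exact add_mem ha hb, add a b⟩
        inv_mem' := by
          rintro _ ⟨a, ha, rfl⟩
          exact ⟨-a, by rw [map_neg]; exact neg_mem ha, B.neg a⟩ }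
    have hS : lcs Q 2 ≤ S := by
      refine (gen2 hxy).trans (sup_le ((Subgroup.zpowers_le).2 ⟨d, ?_, hd⟩) fun k hk => ?_)
      · have c : (B.ρ x - 1) * (B.ρ y - 1) - (B.ρ y - 1) * (B.ρ x - 1) = 0 := by
          rw [B.D_comm, triv _ (lcs_step x (lcs_one y)), sub_self, zero_mul]
        have h1 := words_gen (p := p) (by rw [c]; exact Commute.zero_left _)
          (by rw [c]; exact Commute.zero_left _) (p - 2) hf
        refine (sup_le (Submodule.span_le.2 ?_) ((SS_bot c _).trans bot_le) :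
          _ ≤ (B.sub (Subgroup.zpowers (x ^ p))).comap (LinearMap.applyₗ d)) h1
        rintro _ ⟨i, hi, rfl⟩
        exact mon i hi
      · obtain ⟨w, rfl⟩ := B.sur k ((lcs_ns Q).anti (by omega) hk)
        have h1 := ((F.pow_le hX hY _ hf) 3).1 w hk
        rw [show 3 + (p - 2) = p + 1 by omega, top] at h1
        exact ⟨w, B.sub_mono bot_le h1, rfl⟩
    obtain ⟨w, hw, e⟩ := hS hv
    rwa [← B.inj e]
  intro k hk
  obtain ⟨v, rfl⟩ := B.sur k ((lcs_ns Q).anti h2p hk)
  rw [show 2 + (p - 2) = p by omega] at key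
  exact key hk

end Pool.Agent.P.MP_3dfad8_al.H3
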